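import Mathlib

/-!
# Planes of logarithms in general position: the algebraic core

`F ⊆ Ω` are fields of characteristic zero, `L` is an `F`-subspace of `Ω` which satisfies the hyperplane
case of the linear subgroup theorem, `Da`, `Db` are derivations of `Ω` preserving `F` and `L`, and
`x, y, v` are `F`-independent elements of `L` with `Da x = v = Db y` and `Da y = Db x = 0`,
`Da v = Db v = 0`.  Then `t x, t y ∈ L` implies `t ∈ F`.
-/

set_option autoImplicit false

namespace Pool.Agent.J4.H56

open Polynomial

section poly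

variable {F Ω : Type*} [Field F] [Field Ω] [CharZero Ω] [Algebra F Ω]

/-- the derivation preserves `F` -/
def PresF (F : Type*) {Ω : Type*} [Field F] [Field Ω] [Algebra F Ω] (D : Derivation ℤ Ω Ω) : Prop :=
  ∀ c : F, ∃ c' : F, D (algebraMap F Ω c) = algebraMap F Ω c'

omit [CharZero Ω] in
theorem deriv_aeval {D : Derivation ℤ Ω Ω} (hD : PresF F D) (z : Ω) (P : F[X]) :
    ∃ Q : F[X], Q.natDegree ≤ P.natDegree ∧
      D (aeval z P) = aeval z Q + aeval z (derivative P) * D z := by
  classical
  choose g hg using hD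
  refine ⟨∑ i ∈ Finset.range (P.natDegree + 1), C (g (P.coeff i)) * X ^ i, ?_, ?_⟩
  · refine natDegree_sum_le_of_forall_le _ _ fun i hi => ?_
    refine (natDegree_C_mul_X_pow_le _ _).trans ?_
    have := Finset.mem_range.1 hi
    omega
  · have h1 : ∀ s : Finset ℕ, D (aeval z (∑ i ∈ s, C (P.coeff i) * X ^ i)) =
        aeval z (∑ i ∈ s, C (g (P.coeff i)) * X ^ i) +
          aeval z (derivative (∑ i ∈ s, C (P.coeff i) * X ^ i)) * D z := by
      intro s
      induction s using Finset.induction_on with
      | empty => simp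
      | insert i s his ih =>
        have e1 : ∀ c : F, aeval z (C c * X ^ i) = algebraMap F Ω c * z ^ i := fun c => by
          simp
        have e2 : aeval z (derivative (C (P.coeff i) * X ^ i)) =
            algebraMap F Ω (P.coeff i) * (i * z ^ (i - 1)) := by
          rw [derivative_C_mul_X_pow]
          simp [mul_assoc]
        rw [Finset.sum_insert his, Finset.sum_insert his, derivative_add, map_add (aeval z),
          map_add D, ih, map_add (aeval z), map_add (aeval z), e1, e1, e2, D.leibniz,
          D.leibniz_pow, hg, smul_eq_mul, smul_eq_mul, nsmul_eq_mul, smul_eq_mul]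
        ring
    have h2 := h1 (Finset.range (P.natDegree + 1))
    rw [← as_sum_range_C_mul_X_pow] at h2
    exact h2

theorem charZeroF (F Ω : Type*) [Field F] [Field Ω] [CharZero Ω] [Algebra F Ω] : CharZero F :=
  (algebraMap F Ω).charZero

theorem natDegree_zero_of_dvd {F : Type*} [Field F] [CharZero F] {Q : F[X]}
    (h : Q ∣ derivative Q) : Q.natDegree = 0 := by
  by_contra hne
  have h1 : derivative Q ≠ 0 := fun h0 => hne (derivative_eq_zero.1 h0)
  have h2 := natDegree_le_of_dvd h h1
  have h3 := natDegree_derivative_lt hne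
  omega

/-- coprime fractions -/
theorem exists_coprime {z u : Ω} (hz : Transcendental F z) (hu : u ∈ IntermediateField.adjoin F {z}) :
    ∃ P Q : F[X], IsCoprime P Q ∧ Q ≠ 0 ∧ aeval z Q ≠ 0 ∧ u * aeval z Q = aeval z P := by
  rw [IntermediateField.mem_adjoin_simple_iff] at hu
  obtain ⟨r, s, h⟩ := hu
  by_cases hs : s = 0
  · refine ⟨0, 1, isCoprime_zero_left.2 isUnit_one, one_ne_zero, by simp, ?_⟩
    rw [h, hs]
    simp
  · classical
    obtain ⟨g, P, Q, h1, h2, h3⟩ : ∃ g P Q : F[X], IsCoprime P Q ∧ r = g * P ∧ s = g * Q := by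
      obtain ⟨P, hP⟩ := IsBezout.gcd_dvd_left r s
      obtain ⟨Q, hQ⟩ := IsBezout.gcd_dvd_right r s
      obtain ⟨a, b, hab⟩ := IsBezout.gcd_eq_sum r s
      have hg0 : IsBezout.gcd r s ≠ 0 := by
        intro h0
        rw [h0, zero_mul] at hQ
        exact hs hQ
      refine ⟨IsBezout.gcd r s, P, Q, ⟨a, b, ?_⟩, hP, hQ⟩
      apply mul_left_cancel₀ hg0
      linear_combination hab - a * hP - b * hQ
    have hQ : Q ≠ 0 := by
      rintro rfl
      exact hs (by rw [h3, mul_zero])
    have hg : g ≠ 0 := by
      rintro rfl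
      exact hs (by rw [h3, zero_mul])
    have hzQ : aeval z Q ≠ 0 := fun h0 => hQ (transcendental_iff.1 hz Q h0)
    have hzg : aeval z g ≠ 0 := fun h0 => hg (transcendental_iff.1 hz g h0)
    refine ⟨P, Q, h1, hQ, hzQ, ?_⟩
    rw [h, h2, h3, map_mul, map_mul]
    field_simp

/-- if `t ∈ F(z)` is not in `F` and `D t ∈ F(z)` then `D z ∈ F(z)` -/
theorem dz_mem {D : Derivation ℤ Ω Ω} (hD : PresF F D) {z t : Ω} (hz : Transcendental F z)
    (ht : t ∈ IntermediateField.adjoin F {z}) (htF : ∀ c : F, t ≠ algebraMap F Ω c)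
    (hDt : D t ∈ IntermediateField.adjoin F {z}) : D z ∈ IntermediateField.adjoin F {z} := by
  have := charZeroF F Ω
  set E := IntermediateField.adjoin F {z} with hE
  have hzE : z ∈ E := IntermediateField.mem_adjoin_simple_self F z
  have hpoly : ∀ P : F[X], aeval z P ∈ E := fun P =>
    (IntermediateField.mem_adjoin_simple_iff F _).2 ⟨P, 1, by rw [map_one, div_one]⟩
  obtain ⟨P, Q, h1, h2, h3, h4⟩ := exists_coprime hz ht
  obtain ⟨P1, -, hP1⟩ := deriv_aeval hD z P
  obtain ⟨Q1, -, hQ1⟩ := deriv_aeval hD z Q
  have h5 : D (t * aeval z Q) = D (aeval z P) := by rw [h4]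
  rw [D.leibniz, smul_eq_mul, smul_eq_mul, hP1, hQ1] at h5
  have h6 : D z * aeval z (P * derivative Q - derivative P * Q) =
      aeval z (P1 * Q - P * Q1) - aeval z Q * aeval z Q * D t := by
    simp only [map_sub, map_mul]
    linear_combination (aeval z Q) * h5 - (aeval z Q1 + aeval z (derivative Q) * D z) * h4
  by_cases h7 : P * derivative Q - derivative P * Q = 0
  · exfalso
    have h8 : Q ∣ derivative Q := by
      have h9 : Q ∣ P * derivative Q := ⟨derivative P, by linear_combination h7⟩
      exact h1.symm.dvd_of_dvd_mul_left h9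
    have h9 := natDegree_zero_of_dvd h8
    have h10 : derivative Q = 0 := by
      rw [eq_C_of_natDegree_eq_zero h9, derivative_C]
    rw [h10, mul_zero, zero_sub, neg_eq_zero] at h7
    have h11 : derivative P = 0 := (mul_eq_zero.1 h7).resolve_right h2
    have h12 := derivative_eq_zero.1 h11
    rw [eq_C_of_natDegree_eq_zero h9, eq_C_of_natDegree_eq_zero h12, aeval_C, aeval_C] at h4
    rw [eq_C_of_natDegree_eq_zero h9, aeval_C] at h3
    refine htF (P.coeff 0 / Q.coeff 0) ?_
    rw [map_div₀, eq_div_iff h3]
    exact h4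
  · have h8 : aeval z (P * derivative Q - derivative P * Q) ≠ 0 := fun h0 =>
      h7 (transcendental_iff.1 hz _ h0)
    have h9 : D z = (aeval z (P1 * Q - P * Q1) - aeval z Q * aeval z Q * D t) /
        aeval z (P * derivative Q - derivative P * Q) := by
      rw [eq_div_iff h8]
      exact h6
    rw [h9]
    exact E.div_mem (E.sub_mem (hpoly _) (E.mul_mem (E.mul_mem (hpoly _) (hpoly _)) hDt)) (hpoly _)

/-- if `D z ∈ F(z)` and `D (D z) = 0` then `D z = a + b z` -/
theorem dz_linear {D : Derivation ℤ Ω Ω} (hD : PresF F D) {z : Ω} (hz : Transcendental F z)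
    (h : D z ∈ IntermediateField.adjoin F {z}) (hDD : D (D z) = 0) :
    ∃ a b : F, D z = algebraMap F Ω a + algebraMap F Ω b * z := by
  have := charZeroF F Ω
  obtain ⟨H, G, h1, h2, h3, h4⟩ := exists_coprime hz h
  have hinj : ∀ A B : F[X], aeval z A = aeval z B → A = B := fun A B hAB => by
    have := transcendental_iff.1 hz (A - B) (by rw [map_sub, hAB, sub_self])
    exact sub_eq_zero.1 this
  obtain ⟨H1, hH1', hH1⟩ := deriv_aeval hD z H
  obtain ⟨G1, hG1', hG1⟩ := deriv_aeval hD z G
  have h5 : D (D z * aeval z G) = D (aeval z H) := by rw [h4]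
  rw [D.leibniz, smul_eq_mul, smul_eq_mul, hH1, hG1, hDD, mul_zero, add_zero] at h5
  -- multiply by `G ^ 2`
  have h6 : H * G * G1 + derivative G * H * H = H1 * G * G + derivative H * H * G := by
    apply hinj
    simp only [map_add, map_mul]
    linear_combination (aeval z G) * (aeval z G) * h5 -
      (aeval z G) * (aeval z G1) * h4 + (aeval z G) * (aeval z (derivative H)) * h4 -
      (aeval z (derivative G)) * (D z * aeval z G + aeval z H) * h4
  have h7 : G ∣ derivative G := by
    have h8 : G ∣ H * (H * derivative G) := ⟨H1 * G + derivative H * H - H * G1, by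
      linear_combination h6⟩
    exact h1.symm.dvd_of_dvd_mul_left (h1.symm.dvd_of_dvd_mul_left h8)
  have h9 := natDegree_zero_of_dvd h7
  set c := G.coeff 0 with hc
  have hGc : G = C c := eq_C_of_natDegree_eq_zero h9
  have hc0 : c ≠ 0 := by
    intro h0
    rw [hGc, h0, C_0] at h2
    exact h2 rfl
  -- `D z = K (z)` with a polynomial `K`
  set K : F[X] := C c⁻¹ * H with hK
  have hKz : D z = aeval z K := by
    have h10 : D z * algebraMap F Ω c = aeval z H := by
      rw [← h4, hGc, aeval_C]
    have hc0' : algebraMap F Ω c ≠ 0 := by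
      rw [Ne, map_eq_zero]
      exact hc0
    rw [hK, map_mul, aeval_C, ← h10, map_inv₀]
    field_simp
  obtain ⟨K1, hK1', hK1⟩ := deriv_aeval hD z K
  have h11 : K1 + derivative K * K = 0 := by
    apply hinj
    rw [map_add, map_mul, map_zero, ← hKz, ← hDD, hKz, hK1, ← hKz]
  have h12 : K.natDegree ≤ 1 := by
    by_contra hlt
    push Not at hlt
    have hK0 : K ≠ 0 := by
      intro h0
      rw [h0, natDegree_zero] at hlt
      omega
    have hd : (derivative K).natDegree = K.natDegree - 1 := natDegree_derivative K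
    have hd0 : derivative K ≠ 0 := by
      intro h0
      rw [h0, natDegree_zero] at hd
      omega
    have h13 : (derivative K * K).natDegree = (K.natDegree - 1) + K.natDegree := by
      rw [natDegree_mul hd0 hK0, hd]
    have h14 : derivative K * K = -K1 := by linear_combination h11
    rw [h14, natDegree_neg] at h13
    omega
  refine ⟨K.coeff 0, K.coeff 1, ?_⟩
  rw [hKz]
  conv_lhs => rw [eq_X_add_C_of_natDegree_le_one h12]
  simp only [map_add, map_mul, aeval_C, aeval_X]
  ring

end poly

end Pool.Agent.J4.H56
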