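import Pool.Agent.J4.H56.Ult

/-!
# First rows in spaces of dimension three
-/

set_option autoImplicit false

namespace Pool.Agent.J4.H56

attribute [-instance] Filter.Germ.instModule' Filter.Germ.instSMul' Filter.Germ.instMulAction'
  Filter.Germ.instDistribMulAction'

open Filter Module Pool.Agent.Y787.GL Pool.Agent.Y787.FE
open Pool.Agent.Y787 (QC mem_QC HypC hyperplane)
open Pool.Agent.R350 (BadRow suppI suppI_bound suppI_le second_mem hypV_of_hypC)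

variable {Cc : Type} [Field Cc] [CharZero Cc] [IsAlgClosed Cc] {Lt : Submodule (QC Cc) Cc}
  [HypC Lt]

theorem gh_up_const {ι : Type} (𝒰 : Ultrafilter ι) (a : ι → QC Cc) (z : Cc) :
    (gh 𝒰 Cc (fun b => (a b : Cc) * z) : OU Cc 𝒰) = gh 𝒰 Cc (up a) * gh 𝒰 Cc (fun _ => z) := by
  rw [← map_mul]
  rfl

/-- **Two parameters.** Rows `(x₀ + α v, y₀ + β v)`. -/
theorem two_param (x₀ y₀ v : Cc) (hx : x₀ ∈ Lt) (hy : y₀ ∈ Lt) (hv : v ∈ Lt)
    (hl : LinearIndependent (QC Cc) ![x₀, y₀, v]) :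
    ∃ P : MvPolynomial (Fin 2) (QC Cc), P ≠ 0 ∧ ∀ b : Fin 2 → QC Cc,
      BadRow Lt (x₀ + b 0 * v) (y₀ + b 1 * v) → MvPolynomial.eval b P = 0 := by
  classical
  by_contra hcon
  push Not at hcon
  obtain ⟨𝒰, hgen⟩ := exists_ultra' (ι := {b : Fin 2 → QC Cc //
    BadRow Lt (x₀ + b 0 * v) (y₀ + b 1 * v)}) (fun b => b.1) (by
      intro P hP
      obtain ⟨b, h1, h2⟩ := hcon P hP
      exact ⟨⟨b, h1⟩, h2⟩)
  obtain ⟨Da, hDa, hDa0, hDak⟩ := exists_ultra_der' 𝒰 (fun b => b.1) hgen 0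
  obtain ⟨Db, hDb, hDb0, hDbk⟩ := exists_ultra_der' 𝒰 (fun b => b.1) hgen 1
  have haα := hDak 0
  have haβ := hDak 1
  have hbα := hDbk 0
  have hbβ := hDbk 1
  rw [if_pos rfl] at haα hbβ
  rw [if_neg (by decide)] at haβ hbα
  have eX : (gh 𝒰 Cc (fun b => x₀ + (b.1 0 : Cc) * v) : OU Cc 𝒰) = gh 𝒰 Cc (fun _ => x₀) +
      gh 𝒰 Cc (up fun b => b.1 0) * gh 𝒰 Cc (fun _ => v) := by
    rw [← map_mul, ← map_add]
    rfl
  have eY : (gh 𝒰 Cc (fun b => y₀ + (b.1 1 : Cc) * v) : OU Cc 𝒰) = gh 𝒰 Cc (fun _ => y₀) +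
      gh 𝒰 Cc (up fun b => b.1 1) * gh 𝒰 Cc (fun _ => v) := by
    rw [← map_mul, ← map_add]
    rfl
  have hsm : ∀ (a : _ → QC Cc) (z : Cc), z ∈ Lt →
      gh 𝒰 Cc (up a) * gh 𝒰 Cc (fun _ => z) ∈ LU Lt 𝒰 := by
    intro a z hz
    have h1 := (LU Lt 𝒰).smul_mem (gh 𝒰 (QC Cc) a) (LU_const 𝒰 hz)
    rwa [Algebra.smul_def] at h1
  set W : Submodule (QC Cc) Cc := Submodule.span (QC Cc) {x₀, y₀, v} with hW
  have hWf : FiniteDimensional (QC Cc) W :=
    FiniteDimensional.span_of_finite _ (by simp)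
  have hWL : W ≤ Lt := Submodule.span_le.2 (by
    rintro _ (rfl | rfl | rfl)
    · exact hx
    · exact hy
    · exact hv)
  have hxW : x₀ ∈ W := Submodule.subset_span (by simp)
  have hyW : y₀ ∈ W := Submodule.subset_span (by simp)
  have hvW : v ∈ W := Submodule.subset_span (by simp)
  have hmW : ∀ (a : QC Cc) {z : Cc}, z ∈ W → (a : Cc) * z ∈ W := fun a z hz => by
    have := W.smul_mem a hz
    rwa [Algebra.smul_def] at this
  refine ultra_plane (Lt := Lt) 𝒰 hDa hDb hDa0 hDb0 (fun b => x₀ + (b.1 0 : Cc) * v)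
    (fun b => y₀ + (b.1 1 : Cc) * v) (fun _ => v) ?_ ?_ (LU_const 𝒰 hv) ?_ ?_ ?_ (hDa0 v)
    ?_ ?_ (hDb0 v) W (fun b => W.add_mem hxW (hmW _ hvW))
    (fun b => W.add_mem hyW (hmW _ hvW)) (fun b => b.2)
  · rw [eX]
    exact (LU Lt 𝒰).add_mem (LU_const 𝒰 hx) (hsm _ _ hv)
  · rw [eY]
    exact (LU Lt 𝒰).add_mem (LU_const 𝒰 hy) (hsm _ _ hv)
  · refine Filter.Eventually.of_forall fun b c hc => ?_
    obtain ⟨h1, h2, h3⟩ := (li3_iff _ _ _).1 hl (c 0) (c 1) (c 0 * b.1 0 + c 1 * b.1 1 + c 2) (by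
      rw [← hc]
      push_cast
      ring)
    rw [h1, h2, zero_mul, zero_mul, zero_add, zero_add] at h3
    funext i
    fin_cases i
    · exact h1
    · exact h2
    · exact h3
  · rw [eX, map_add, hDa0, Da.leibniz, hDa0, haα, smul_zero, zero_add, zero_add, smul_eq_mul,
      mul_one]
  · rw [eY, map_add, hDa0, Da.leibniz, hDa0, haβ, smul_zero, smul_zero, zero_add, zero_add]
  · rw [eX, map_add, hDb0, Db.leibniz, hDb0, hbα, smul_zero, smul_zero, zero_add, zero_add]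
  · rw [eY, map_add, hDb0, Db.leibniz, hDb0, hbβ, smul_zero, zero_add, zero_add, smul_eq_mul,
      mul_one]

/-- **Planes in a three-dimensional space.** -/
theorem plane_curve (l : Fin 3 → Cc) (hlL : ∀ k, l k ∈ Lt) (hl : LinearIndependent (QC Cc) l) :
    ∃ P : MvPolynomial (Fin 3) (QC Cc), P ≠ 0 ∧ ∀ p : Fin 3 → QC Cc, p 2 ≠ 0 →
      BadRow Lt ((p 2 : Cc) * l 0 - p 0 * l 2) ((p 2 : Cc) * l 1 - p 1 * l 2) →
        MvPolynomial.eval p P = 0 := by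
  classical
  by_contra hcon
  push Not at hcon
  obtain ⟨𝒰, hgen⟩ := exists_ultra' (ι := {p : Fin 3 → QC Cc // p 2 ≠ 0 ∧
      BadRow Lt ((p 2 : Cc) * l 0 - p 0 * l 2) ((p 2 : Cc) * l 1 - p 1 * l 2)})
      (fun b => b.1) (by
      intro P hP
      obtain ⟨b, h1, h2, h3⟩ := hcon P hP
      exact ⟨⟨b, h1, h2⟩, h3⟩)
  obtain ⟨Da, hDa, hDa0, hDak⟩ := exists_ultra_der' 𝒰 (fun b => b.1) hgen 0
  obtain ⟨Db, hDb, hDb0, hDbk⟩ := exists_ultra_der' 𝒰 (fun b => b.1) hgen 1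
  have ha0 := hDak 0
  have ha1 := hDak 1
  have ha2 := hDak 2
  have hb0 := hDbk 0
  have hb1 := hDbk 1
  have hb2 := hDbk 2
  rw [if_pos rfl] at ha0 hb1
  rw [if_neg (by decide)] at ha1 ha2 hb0 hb2
  have eX : (gh 𝒰 Cc (fun b => (b.1 2 : Cc) * l 0 - b.1 0 * l 2) : OU Cc 𝒰) =
      gh 𝒰 Cc (up fun b => b.1 2) * gh 𝒰 Cc (fun _ => l 0) -
      gh 𝒰 Cc (up fun b => b.1 0) * gh 𝒰 Cc (fun _ => l 2) := by
    rw [← map_mul, ← map_mul, ← map_sub]
    rfl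
  have eY : (gh 𝒰 Cc (fun b => (b.1 2 : Cc) * l 1 - b.1 1 * l 2) : OU Cc 𝒰) =
      gh 𝒰 Cc (up fun b => b.1 2) * gh 𝒰 Cc (fun _ => l 1) -
      gh 𝒰 Cc (up fun b => b.1 1) * gh 𝒰 Cc (fun _ => l 2) := by
    rw [← map_mul, ← map_mul, ← map_sub]
    rfl
  have eV : (gh 𝒰 Cc (fun _ => -l 2) : OU Cc 𝒰) = -gh 𝒰 Cc (fun _ => l 2) := by
    rw [← map_neg]
    rfl
  have hsm : ∀ (a : _ → QC Cc) (z : Cc), z ∈ Lt →
      gh 𝒰 Cc (up a) * gh 𝒰 Cc (fun _ => z) ∈ LU Lt 𝒰 := by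
    intro a z hz
    have h1 := (LU Lt 𝒰).smul_mem (gh 𝒰 (QC Cc) a) (LU_const 𝒰 hz)
    rwa [Algebra.smul_def] at h1
  set W : Submodule (QC Cc) Cc := Submodule.span (QC Cc) (Set.range l) with hW
  have hWf : FiniteDimensional (QC Cc) W :=
    FiniteDimensional.span_of_finite _ (Set.finite_range l)
  have hWL : W ≤ Lt := Submodule.span_le.2 (by rintro _ ⟨k, rfl⟩; exact hlL k)
  have hlW : ∀ k, l k ∈ W := fun k => Submodule.subset_span ⟨k, rfl⟩
  have hmW : ∀ (a : QC Cc) {z : Cc}, z ∈ W → (a : Cc) * z ∈ W := fun a z hz => by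
    have := W.smul_mem a hz
    rwa [Algebra.smul_def] at this
  have hl' : LinearIndependent (QC Cc) ![l 0, l 1, l 2] := by
    have e : ![l 0, l 1, l 2] = l := by
      funext k
      fin_cases k <;> rfl
    rw [e]
    exact hl
  refine ultra_plane (Lt := Lt) 𝒰 hDa hDb hDa0 hDb0
    (fun b => (b.1 2 : Cc) * l 0 - b.1 0 * l 2) (fun b => (b.1 2 : Cc) * l 1 - b.1 1 * l 2)
    (fun _ => -l 2) ?_ ?_ (LU_const 𝒰 (Lt.neg_mem (hlL 2))) ?_ ?_ ?_ (hDa0 _)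
    ?_ ?_ (hDb0 _) W (fun b => W.sub_mem (hmW _ (hlW _)) (hmW _ (hlW _)))
    (fun b => W.sub_mem (hmW _ (hlW _)) (hmW _ (hlW _))) (fun b => b.2.2)
  · rw [eX]
    exact (LU Lt 𝒰).sub_mem (hsm _ _ (hlL _)) (hsm _ _ (hlL _))
  · rw [eY]
    exact (LU Lt 𝒰).sub_mem (hsm _ _ (hlL _)) (hsm _ _ (hlL _))
  · refine Filter.Eventually.of_forall fun b c hc => ?_
    obtain ⟨h1, h2, h3⟩ := (li3_iff _ _ _).1 hl' (c 0 * b.1 2) (c 1 * b.1 2)
      (-(c 0 * b.1 0 + c 1 * b.1 1 + c 2)) (by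
        rw [← hc]
        push_cast
        ring)
    have h4 := (mul_eq_zero.1 h1).resolve_right b.2.1
    have h5 := (mul_eq_zero.1 h2).resolve_right b.2.1
    rw [h4, h5, zero_mul, zero_mul, zero_add, zero_add, neg_eq_zero] at h3
    funext i
    fin_cases i
    · exact h4
    · exact h5
    · exact h3
  · rw [eX, eV, map_sub, Da.leibniz, Da.leibniz, hDa0, hDa0, ha2, ha0]
    simp
  · rw [eY, map_sub, Da.leibniz, Da.leibniz, hDa0, hDa0, ha2, ha1]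
    simp
  · rw [eX, map_sub, Db.leibniz, Db.leibniz, hDb0, hDb0, hb2, hb0]
    simp
  · rw [eY, eV, map_sub, Db.leibniz, Db.leibniz, hDb0, hDb0, hb2, hb1]
    simp

/-- **Pairs in a space of dimension at least three.** -/
theorem row_hyper {N : ℕ} (hN : 3 ≤ N) (l : Fin N → Cc) (hlL : ∀ k, l k ∈ Lt)
    (hl : LinearIndependent (QC Cc) l) :
    ∃ P : MvPolynomial (Fin (2 * N)) (QC Cc), P ≠ 0 ∧ ∀ b : Fin (2 * N) → QC Cc,
      BadRow Lt (∑ j, (b (finProdFinEquiv (0, j)) : Cc) * l j)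
        (∑ j, (b (finProdFinEquiv (1, j)) : Cc) * l j) → MvPolynomial.eval b P = 0 := by
  classical
  by_contra hcon
  push Not at hcon
  obtain ⟨𝒰, hgen⟩ := exists_ultra' (ι := {b : Fin (2 * N) → QC Cc //
      BadRow Lt (∑ j, (b (finProdFinEquiv (0, j)) : Cc) * l j)
        (∑ j, (b (finProdFinEquiv (1, j)) : Cc) * l j)})
      (fun b => b.1) (by
      intro P hP
      obtain ⟨b, h1, h2⟩ := hcon P hP
      exact ⟨⟨b, h1⟩, h2⟩)
  let j0 : Fin N := ⟨0, by omega⟩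
  let j1 : Fin N := ⟨1, by omega⟩
  let j2 : Fin N := ⟨2, by omega⟩
  have h01 : j0 ≠ j1 := by simp [j0, j1]
  have h02 : j0 ≠ j2 := by simp [j0, j2]
  have h12 : j1 ≠ j2 := by simp [j1, j2]
  let e : Fin 2 → Fin N → Fin (2 * N) := fun i j => finProdFinEquiv (i, j)
  have he : ∀ i j i' j', e i j = e i' j' ↔ i = i' ∧ j = j' := by
    intro i j i' j'
    change finProdFinEquiv (i, j) = finProdFinEquiv (i', j') ↔ _
    rw [finProdFinEquiv.injective.eq_iff, Prod.mk.injEq]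
  obtain ⟨Da, hDa, hDa0, hDak⟩ := exists_ultra_der' 𝒰 (fun b => b.1) hgen (e 0 j2)
  obtain ⟨Db, hDb, hDb0, hDbk⟩ := exists_ultra_der' 𝒰 (fun b => b.1) hgen (e 1 j2)
  have eX : ∀ i, (gh 𝒰 Cc (fun b => ∑ j, (b.1 (e i j) : Cc) * l j) : OU Cc 𝒰) =
      ∑ j, gh 𝒰 Cc (up fun b => b.1 (e i j)) * gh 𝒰 Cc (fun _ => l j) := by
    intro i
    simp only [← map_mul]
    rw [← map_sum]
    congr 1
    funext b
    rw [Finset.sum_apply]
    rfl
  have hsm : ∀ (a : _ → QC Cc) (z : Cc), z ∈ Lt →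
      gh 𝒰 Cc (up a) * gh 𝒰 Cc (fun _ => z) ∈ LU Lt 𝒰 := by
    intro a z hz
    have h1 := (LU Lt 𝒰).smul_mem (gh 𝒰 (QC Cc) a) (LU_const 𝒰 hz)
    rwa [Algebra.smul_def] at h1
  set W : Submodule (QC Cc) Cc := Submodule.span (QC Cc) (Set.range l) with hW
  have hWf : FiniteDimensional (QC Cc) W :=
    FiniteDimensional.span_of_finite _ (Set.finite_range l)
  have hWL : W ≤ Lt := Submodule.span_le.2 (by rintro _ ⟨k, rfl⟩; exact hlL k)
  have hlW : ∀ k, l k ∈ W := fun k => Submodule.subset_span ⟨k, rfl⟩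
  have hmW : ∀ (a : QC Cc) {z : Cc}, z ∈ W → (a : Cc) * z ∈ W := fun a z hz => by
    have := W.smul_mem a hz
    rwa [Algebra.smul_def] at this
  -- the generic minor is not zero
  have hminor : ∀ᶠ b in (𝒰 : Filter {b : Fin (2 * N) → QC Cc //
      BadRow Lt (∑ j, (b (finProdFinEquiv (0, j)) : Cc) * l j)
        (∑ j, (b (finProdFinEquiv (1, j)) : Cc) * l j)}),
      b.1 (e 0 j0) * b.1 (e 1 j1) - b.1 (e 0 j1) * b.1 (e 1 j0) ≠ 0 := by
    have h1 := hgen (MvPolynomial.X (e 0 j0) * MvPolynomial.X (e 1 j1) -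
      MvPolynomial.X (e 0 j1) * MvPolynomial.X (e 1 j0)) (by
        intro h0
        have h1 := congrArg (MvPolynomial.eval (fun k => if k = e 0 j0 ∨ k = e 1 j1 then
          (1 : QC Cc) else 0)) h0
        simp only [map_sub, map_mul, MvPolynomial.eval_X, map_zero, he] at h1
        simp [h01, h01.symm] at h1)
    refine h1.mono fun b hb => ?_
    simpa only [map_sub, map_mul, MvPolynomial.eval_X] using hb
  refine ultra_plane (Lt := Lt) 𝒰 hDa hDb hDa0 hDb0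
    (fun b => ∑ j, (b.1 (e 0 j) : Cc) * l j) (fun b => ∑ j, (b.1 (e 1 j) : Cc) * l j)
    (fun _ => l j2) ?_ ?_ (LU_const 𝒰 (hlL j2)) ?_ ?_ ?_ (hDa0 _)
    ?_ ?_ (hDb0 _) W (fun b => W.sum_mem fun j _ => hmW _ (hlW _))
    (fun b => W.sum_mem fun j _ => hmW _ (hlW _)) (fun b => b.2)
  · rw [eX]
    exact (LU Lt 𝒰).sum_mem fun j _ => hsm _ _ (hlL _)
  · rw [eX]
    exact (LU Lt 𝒰).sum_mem fun j _ => hsm _ _ (hlL _)
  · refine hminor.mono fun b hb c hc => ?_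
    have h1 : ∑ j, (c 0 * b.1 (e 0 j) + c 1 * b.1 (e 1 j) + (if j = j2 then c 2 else 0)) • l j = 0 := by
      rw [← hc]
      simp only [Algebra.smul_def, map_add, map_mul, add_mul, Finset.sum_add_distrib,
        Finset.mul_sum, mul_assoc]
      congr 1
      rw [Finset.sum_eq_single j2]
      · rw [if_pos rfl]
        rfl
      · intro j _ hj
        rw [if_neg hj, map_zero, zero_mul]
      · intro h; exact absurd (Finset.mem_univ _) h
    have h2 := Fintype.linearIndependent_iff.1 hl _ h1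
    have g0 := h2 j0
    have g1 := h2 j1
    have g2 := h2 j2
    rw [if_neg h02, add_zero] at g0
    rw [if_neg h12, add_zero] at g1
    rw [if_pos rfl] at g2
    have hc0 : c 0 = 0 := by
      have : c 0 * (b.1 (e 0 j0) * b.1 (e 1 j1) - b.1 (e 0 j1) * b.1 (e 1 j0)) = 0 := by
        linear_combination b.1 (e 1 j1) * g0 - b.1 (e 1 j0) * g1
      exact (mul_eq_zero.1 this).resolve_right hb
    have hc1 : c 1 = 0 := by
      have : c 1 * (b.1 (e 0 j0) * b.1 (e 1 j1) - b.1 (e 0 j1) * b.1 (e 1 j0)) = 0 := by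
        linear_combination b.1 (e 0 j0) * g1 - b.1 (e 0 j1) * g0
      exact (mul_eq_zero.1 this).resolve_right hb
    rw [hc0, hc1, zero_mul, zero_mul, zero_add, zero_add] at g2
    funext i
    fin_cases i
    · exact hc0
    · exact hc1
    · exact g2
  all_goals
    rw [eX, map_sum]
    simp only [Derivation.leibniz, hDa0, hDb0, hDak, hDbk, he, smul_zero, zero_add, smul_eq_mul]
    simp

end Pool.Agent.J4.H56
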