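import Mathlib

/-!
# Counting pairs of integral vectors by the plane which they span
-/

set_option autoImplicit false

namespace Pool.Agent.J4.H56

open Finset

/-- integral points of a box on a hypersurface -/
theorem sz {K : Type*} [Field K] [CharZero K] {n : ℕ} (Q : MvPolynomial (Fin n) K) (hQ : Q ≠ 0)
    (R : ℕ) (F : Finset (Fin n → ℤ))
    (hF : ∀ a ∈ F, (∀ j, |a j| ≤ R) ∧ MvPolynomial.eval (fun j => (a j : K)) Q = 0) (hn : 0 < n) :
    F.card ≤ Q.totalDegree * (2 * R + 1) ^ (n - 1) := by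
  classical
  set S : Finset K := (Finset.Icc (-(R : ℤ)) R).image (fun z : ℤ => (z : K)) with hS
  have hcS : S.card = 2 * R + 1 := by
    rw [hS, Finset.card_image_of_injective _ Int.cast_injective, Int.card_Icc]
    omega
  have h1 := MvPolynomial.schwartz_zippel_totalDegree hQ S
  have h2 : F.card ≤ (Finset.filter (fun f => MvPolynomial.eval f Q = 0)
      (Fintype.piFinset fun _ : Fin n => S)).card := by
    refine Finset.card_le_card_of_injOn (fun a j => (a j : K)) ?_ ?_
    · intro a ha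
      rw [Finset.mem_coe, Finset.mem_filter, Fintype.mem_piFinset]
      refine ⟨fun j => ?_, (hF a ha).2⟩
      rw [hS, Finset.mem_image]
      exact ⟨a j, by rw [Finset.mem_Icc, ← abs_le]; exact (hF a ha).1 j, rfl⟩
    · intro a _ b _ hab
      funext j
      exact Int.cast_injective (congrFun hab j)
  rw [hcS] at h1
  have hpos : (0 : ℚ≥0) < ((2 * R + 1 : ℕ) : ℚ≥0) := by
    exact_mod_cast Nat.succ_pos _
  rw [div_le_div_iff₀ (pow_pos hpos n) hpos] at h1
  have h3 : (Finset.filter (fun f => MvPolynomial.eval f Q = 0)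
      (Fintype.piFinset fun _ : Fin n => S)).card * (2 * R + 1) ≤
        Q.totalDegree * (2 * R + 1) ^ n := by
    exact_mod_cast h1
  obtain ⟨m, rfl⟩ : ∃ m, n = m + 1 := ⟨n - 1, by omega⟩
  rw [pow_succ, ← mul_assoc] at h3
  exact h2.trans (Nat.le_of_mul_le_mul_right h3 (Nat.succ_pos _))

/-- primitive vectors -/
def Prim (p : Fin 3 → ℤ) : Prop := ∃ α : Fin 3 → ℤ, ∑ j, α j * p j = 1

/-- independent vectors -/
def Indep (u v : Fin 3 → ℤ) : Prop := ∀ s t : ℤ, (∀ j, s * u j + t * v j = 0) → s = 0 ∧ t = 0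

theorem small_rep {p u v : Fin 3 → ℤ} {H : ℕ} (hp : Prim p) (hu : ∑ j, p j * u j = 0)
    (hv : ∑ j, p j * v j = 0) (hu' : ∀ j, |u j| ≤ H) (hv' : ∀ j, |v j| ≤ H)
    (hD : u 0 * v 1 - u 1 * v 0 ≠ 0) (c : ℤ) :
    ∃ r s : ℤ, |r| ≤ 2 * H ∧ |s| ≤ 2 * H ∧ p 2 ∣ p 0 * r + p 1 * s - c := by
  obtain ⟨α, hα⟩ := hp
  rw [Fin.sum_univ_three] at hα hu hv
  set D := u 0 * v 1 - u 1 * v 0 with hDdef
  set A := c * α 0 * v 1 - c * α 1 * v 0 with hA
  set B := u 0 * (c * α 1) - u 1 * (c * α 0) with hB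
  have hA1 := Int.emod_add_mul_ediv A D
  have hB1 := Int.emod_add_mul_ediv B D
  have hA2 := Int.emod_nonneg A hD
  have hB2 := Int.emod_nonneg B hD
  have hA3 := Int.emod_lt_abs A hD
  have hB3 := Int.emod_lt_abs B hD
  have hDpos : 0 < |D| := abs_pos.2 hD
  have key : ∀ x y z : ℤ, |x| ≤ H → |y| ≤ H → D * z = (A % D) * x + (B % D) * y → |z| ≤ 2 * H := by
    intro x y z hx hy hz
    have h1 : |D| * |z| ≤ |D| * (2 * H) := by
      rw [← abs_mul, hz]
      refine (abs_add_le _ _).trans ?_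
      rw [abs_mul, abs_mul, abs_of_nonneg hA2, abs_of_nonneg hB2]
      have h3 : A % D * |x| ≤ |D| * H := mul_le_mul hA3.le hx (abs_nonneg _) hDpos.le
      have h4 : B % D * |y| ≤ |D| * H := mul_le_mul hB3.le hy (abs_nonneg _) hDpos.le
      linarith
    exact le_of_mul_le_mul_left h1 hDpos
  refine ⟨c * α 0 - A / D * u 0 - B / D * v 0, c * α 1 - A / D * u 1 - B / D * v 1,
    key _ _ _ (hu' 0) (hv' 0) ?_, key _ _ _ (hu' 1) (hv' 1) ?_,
    ⟨-(c * α 2) + A / D * u 2 + B / D * v 2, ?_⟩⟩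
  · linear_combination (-u 0) * hA1 - v 0 * hB1 + (c * α 0) * hDdef - u 0 * hA - v 0 * hB
  · linear_combination (-u 1) * hA1 - v 1 * hB1 + (c * α 1) * hDdef - u 1 * hA - v 1 * hB
  · linear_combination c * hα - A / D * hu - B / D * hv

theorem lattice2 {p u v : Fin 3 → ℤ} {H : ℕ} (hp : Prim p) (hp2 : p 2 ≠ 0)
    (S : Finset (Fin 3 → ℤ)) (hS : ∀ a ∈ S, ∑ j, p j * a j = 0 ∧ ∀ j, |a j| ≤ H)
    (hu : u ∈ S) (hv : v ∈ S) (huv : Indep u v) :
    (p 2).natAbs * S.card ≤ (6 * H + 1) ^ 2 := by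
  classical
  obtain ⟨hu1, hu2⟩ := hS u hu
  obtain ⟨hv1, hv2⟩ := hS v hv
  have hD : u 0 * v 1 - u 1 * v 0 ≠ 0 := by
    intro hD
    have eu := hu1
    have ev := hv1
    rw [Fin.sum_univ_three] at eu ev
    have h0 : v 0 = 0 ∧ -u 0 = 0 := huv (v 0) (-u 0) (by
      intro j
      fin_cases j
      · simp; ring
      · simp; linear_combination (-1 : ℤ) * hD
      · have h5 : p 2 * (v 0 * u 2 + -u 0 * v 2) = p 2 * 0 := by
          linear_combination v 0 * eu - u 0 * ev + p 1 * hD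
        exact mul_left_cancel₀ hp2 h5)
    have h1 : v 1 = 0 ∧ -u 1 = 0 := huv (v 1) (-u 1) (by
      intro j
      fin_cases j
      · simp; linear_combination hD
      · simp; ring
      · have h5 : p 2 * (v 1 * u 2 + -u 1 * v 2) = p 2 * 0 := by
          linear_combination v 1 * eu - u 1 * ev - p 0 * hD
        exact mul_left_cancel₀ hp2 h5)
    have hu0 : u 0 = 0 := neg_eq_zero.1 h0.2
    have hu1' : u 1 = 0 := neg_eq_zero.1 h1.2
    rw [hu0, hu1', mul_zero, mul_zero, zero_add, zero_add] at eu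
    have hu2' : u 2 = 0 := (mul_eq_zero.1 eu).resolve_left hp2
    have := huv 1 0 (by
      intro j
      fin_cases j
      · simp [hu0]
      · simp [hu1']
      · simp [hu2'])
    exact one_ne_zero this.1
  choose r s hr hs hrs using small_rep hp hu1 hv1 hu2 hv2 hD
  have h1 : ((Finset.range (p 2).natAbs) ×ˢ S).card ≤
      ((Finset.Icc (-(3 * H : ℤ)) (3 * H)) ×ˢ (Finset.Icc (-(3 * H : ℤ)) (3 * H))).card := by
    refine Finset.card_le_card_of_injOn (fun x => (r x.1 + x.2 0, s x.1 + x.2 1)) ?_ ?_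
    · rintro ⟨c, a⟩ hx
      rw [Finset.mem_coe, Finset.mem_product] at hx
      obtain ⟨-, ha⟩ := hx
      have h2 := (hS a ha).2
      rw [Finset.mem_coe, Finset.mem_product, Finset.mem_Icc, Finset.mem_Icc]
      have e1 := abs_le.1 (hr c)
      have e2 := abs_le.1 (hs c)
      have e3 := abs_le.1 (h2 0)
      have e4 := abs_le.1 (h2 1)
      simp only
      refine ⟨⟨?_, ?_⟩, ⟨?_, ?_⟩⟩ <;> linarith [e1.1, e1.2, e2.1, e2.2, e3.1, e3.2, e4.1, e4.2]
    · rintro ⟨c, a⟩ hx ⟨c', a'⟩ hx' h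
      rw [Finset.mem_coe, Finset.mem_product, Finset.mem_range] at hx hx'
      simp only [Prod.mk.injEq] at h
      obtain ⟨g1, g2⟩ := h
      have ea := (hS a hx.2).1
      have ea' := (hS a' hx'.2).1
      rw [Fin.sum_univ_three] at ea ea'
      obtain ⟨m, hm⟩ := hrs c
      obtain ⟨m', hm'⟩ := hrs c'
      have h2 : p 2 ∣ (c : ℤ) - c' := by
        refine ⟨m' - m + (a 2 - a' 2), ?_⟩
        linear_combination hm' - hm + p 0 * g1 + p 1 * g2 - ea + ea'
      have h3 : (c : ℤ) = c' := by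
        have h4 : ((p 2).natAbs : ℤ) ∣ (c : ℤ) - c' := Int.natAbs_dvd.2 h2
        have h5 : |(c : ℤ) - c'| < (p 2).natAbs := by
          have := hx.1
          have := hx'.1
          simp only at *
          rw [abs_lt]
          constructor <;> omega
        have := Int.eq_zero_of_abs_lt_dvd h4 h5
        linarith
      have h3' : c = c' := by exact_mod_cast h3
      subst h3'
      have e0 : a 0 = a' 0 := by linarith
      have e1 : a 1 = a' 1 := by linarith
      have e2 : a 2 = a' 2 := by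
        apply mul_left_cancel₀ hp2
        rw [e0, e1] at ea
        linarith
      rw [Prod.mk.injEq]
      refine ⟨rfl, ?_⟩
      funext j
      fin_cases j
      · exact e0
      · exact e1
      · exact e2
  rw [Finset.card_product, Finset.card_product, Finset.card_range, Int.card_Icc] at h1
  have h2 : (3 * (H : ℤ) + 1 - -(3 * H)).toNat = 6 * H + 1 := by omega
  rw [h2] at h1
  rw [sq]
  exact h1

theorem lattice {p u v : Fin 3 → ℤ} {H : ℕ} (hp : Prim p) (i : Fin 3) (hpi : p i ≠ 0)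
    (S : Finset (Fin 3 → ℤ)) (hS : ∀ a ∈ S, ∑ j, p j * a j = 0 ∧ ∀ j, |a j| ≤ H)
    (hu : u ∈ S) (hv : v ∈ S) (huv : Indep u v) :
    (p i).natAbs * S.card ≤ (6 * H + 1) ^ 2 := by
  classical
  set σ : Equiv.Perm (Fin 3) := Equiv.swap 2 i with hσ
  have hσ2 : σ 2 = i := Equiv.swap_apply_left _ _
  have hinj : Function.Injective (fun (a : Fin 3 → ℤ) => a ∘ σ) := by
    intro a b hab
    funext j
    have := congrFun hab (σ.symm j)
    simpa using this
  have h1 := lattice2 (p := p ∘ σ) (u := u ∘ σ) (v := v ∘ σ) (H := H) (by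
      obtain ⟨α, hα⟩ := hp
      refine ⟨α ∘ σ, ?_⟩
      rw [← hα]
      exact Equiv.sum_comp σ (fun j => α j * p j)) (by
      rw [Function.comp_apply, hσ2]; exact hpi) (S.image fun a => a ∘ σ) (by
      intro a ha
      obtain ⟨b, hb, rfl⟩ := Finset.mem_image.1 ha
      refine ⟨?_, fun j => (hS b hb).2 _⟩
      rw [← (hS b hb).1]
      exact Equiv.sum_comp σ (fun j => p j * b j)) (Finset.mem_image_of_mem _ hu)
      (Finset.mem_image_of_mem _ hv) (by
      intro s t hst
      refine huv s t fun j => ?_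
      have := hst (σ.symm j)
      simpa using this)
  rw [Finset.card_image_of_injective _ hinj, Function.comp_apply, hσ2] at h1
  exact h1

end Pool.Agent.J4.H56
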