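import Mathlib
import Pool.Agent.J4.H56.Lattice

/-!
# Counting pairs of integral vectors whose plane is on a curve
-/

set_option autoImplicit false

namespace Pool.Agent.J4.H56

open Finset

/-- the cross product is a multiple of the primitive normal vector -/
theorem cross_le {p u v : Fin 3 → ℤ} {H : ℕ} (hp : Prim p) (hu : ∑ j, p j * u j = 0)
    (hv : ∑ j, p j * v j = 0) (hu' : ∀ j, |u j| ≤ H) (hv' : ∀ j, |v j| ≤ H) (huv : Indep u v) :
    ∀ j, |p j| ≤ 2 * H ^ 2 := by
  obtain ⟨α, hα⟩ := hp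
  rw [Fin.sum_univ_three] at hα hu hv
  set c0 := u 1 * v 2 - u 2 * v 1 with hc0
  set c1 := u 2 * v 0 - u 0 * v 2 with hc1
  set c2 := u 0 * v 1 - u 1 * v 0 with hc2
  set g := α 0 * c0 + α 1 * c1 + α 2 * c2 with hg
  have e0 : c0 = g * p 0 := by
    rw [hg, hc0, hc1, hc2]
    linear_combination (-(u 1 * v 2 - u 2 * v 1)) * hα - (α 2 * v 1 - α 1 * v 2) * hu -
      (α 1 * u 2 - α 2 * u 1) * hv
  have e1 : c1 = g * p 1 := by
    rw [hg, hc0, hc1, hc2]
    linear_combination (-(u 2 * v 0 - u 0 * v 2)) * hα - (α 0 * v 2 - α 2 * v 0) * hu -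
      (α 2 * u 0 - α 0 * u 2) * hv
  have e2 : c2 = g * p 2 := by
    rw [hg, hc0, hc1, hc2]
    linear_combination (-(u 0 * v 1 - u 1 * v 0)) * hα - (α 1 * v 0 - α 0 * v 1) * hu -
      (α 0 * u 1 - α 1 * u 0) * hv
  have hg0 : g ≠ 0 := by
    intro h0
    rw [h0, zero_mul] at e0 e1 e2
    -- all minors vanish
    have h1 : ∀ i, u i = 0 := by
      intro i
      have h2 : v i = 0 ∧ -u i = 0 := huv (v i) (-u i) (by
        intro j
        fin_cases i <;> fin_cases j <;> simp <;> linarith)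
      exact neg_eq_zero.1 h2.2
    have h2 := huv 1 0 (fun j => by rw [h1 j]; ring)
    exact one_ne_zero h2.1
  have hb : ∀ x y z w : ℤ, |x| ≤ H → |y| ≤ H → |z| ≤ H → |w| ≤ H →
      |x * y - z * w| ≤ 2 * H ^ 2 := by
    intro x y z w hx hy hz hw
    refine (abs_sub _ _).trans ?_
    rw [abs_mul, abs_mul]
    have h1 : |x| * |y| ≤ H * H := mul_le_mul hx hy (abs_nonneg _) (Int.natCast_nonneg _)
    have h2 : |z| * |w| ≤ H * H := mul_le_mul hz hw (abs_nonneg _) (Int.natCast_nonneg _)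
    nlinarith
  have hfin : ∀ c q : ℤ, c = g * q → |c| ≤ 2 * H ^ 2 → |q| ≤ 2 * H ^ 2 := by
    intro c q hc hcb
    rw [hc, abs_mul] at hcb
    have h1 : 1 ≤ |g| := Int.one_le_abs hg0
    have h2 := abs_nonneg q
    nlinarith
  intro j
  fin_cases j
  · exact hfin _ _ e0 (hb _ _ _ _ (hu' _) (hv' _) (hu' _) (hv' _))
  · exact hfin _ _ e1 (hb _ _ _ _ (hu' _) (hv' _) (hu' _) (hv' _))
  · exact hfin _ _ e2 (hb _ _ _ _ (hu' _) (hv' _) (hu' _) (hv' _))

/-- the size of a vector -/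
def size (p : Fin 3 → ℤ) : ℕ := Finset.univ.sup fun j => (p j).natAbs

theorem le_size (p : Fin 3 → ℤ) (j : Fin 3) : (p j).natAbs ≤ size p :=
  Finset.le_sup (f := fun j => (p j).natAbs) (Finset.mem_univ j)

theorem exists_size (p : Fin 3 → ℤ) : ∃ j, (p j).natAbs = size p := by
  obtain ⟨j, -, hj⟩ := Finset.exists_mem_eq_sup Finset.univ Finset.univ_nonempty
    (fun j => (p j).natAbs)
  exact ⟨j, hj.symm⟩

/-- the number of pairs with a given plane -/
theorem fiber {p : Fin 3 → ℤ} {H : ℕ} (hp : Prim p) (F : Finset (Fin 2 × Fin 3 → ℤ))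
    (hF : ∀ A ∈ F, (∀ x, |A x| ≤ H) ∧ Indep (fun j => A (0, j)) (fun j => A (1, j)) ∧
      (∑ j, p j * A (0, j) = 0) ∧ (∑ j, p j * A (1, j) = 0)) :
    size p ^ 2 * F.card ≤ (6 * H + 1) ^ 4 := by
  classical
  rcases F.eq_empty_or_nonempty with rfl | ⟨A0, hA0⟩
  · simp
  obtain ⟨i, hi⟩ := exists_size p
  have hpi : p i ≠ 0 := by
    intro h0
    obtain ⟨α, hα⟩ := hp
    have h1 : ∀ j, p j = 0 := by
      intro j
      have h2 := le_size p j
      rw [← hi, h0] at h2
      simpa using h2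
    simp [h1] at hα
  set S : Finset (Fin 3 → ℤ) := F.image (fun A j => A (0, j)) ∪ F.image (fun A j => A (1, j))
    with hS
  have hS' : ∀ a ∈ S, ∑ j, p j * a j = 0 ∧ ∀ j, |a j| ≤ H := by
    intro a ha
    rcases Finset.mem_union.1 ha with ha | ha
    · obtain ⟨A, hA, rfl⟩ := Finset.mem_image.1 ha
      exact ⟨(hF A hA).2.2.1, fun j => (hF A hA).1 _⟩
    · obtain ⟨A, hA, rfl⟩ := Finset.mem_image.1 ha
      exact ⟨(hF A hA).2.2.2, fun j => (hF A hA).1 _⟩
  have h1 := lattice hp i hpi S hS' (Finset.mem_union_left _ (Finset.mem_image_of_mem _ hA0))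
    (Finset.mem_union_right _ (Finset.mem_image_of_mem _ hA0)) (hF A0 hA0).2.1
  rw [hi] at h1
  have h2 : F.card ≤ (S ×ˢ S).card := by
    refine Finset.card_le_card_of_injOn (fun A => ((fun j => A (0, j)), fun j => A (1, j))) ?_ ?_
    · intro A hA
      rw [Finset.mem_coe, Finset.mem_product]
      exact ⟨Finset.mem_union_left _ (Finset.mem_image_of_mem _ hA),
        Finset.mem_union_right _ (Finset.mem_image_of_mem _ hA)⟩
    · intro A _ B _ hAB
      rw [Prod.mk.injEq] at hAB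
      funext x
      obtain ⟨i, j⟩ := x
      fin_cases i
      · exact congrFun hAB.1 j
      · exact congrFun hAB.2 j
  rw [Finset.card_product] at h2
  calc size p ^ 2 * F.card ≤ size p ^ 2 * (S.card * S.card) := Nat.mul_le_mul_left _ h2
    _ = (size p * S.card) ^ 2 := by ring
    _ ≤ ((6 * H + 1) ^ 2) ^ 2 := Nat.pow_le_pow_left h1 2
    _ = (6 * H + 1) ^ 4 := by ring

/-- **Pairs whose plane is on a curve.** -/
theorem count_pairs {K : Type*} [Field K] [CharZero K] (Q : MvPolynomial (Fin 3) K) (hQ : Q ≠ 0)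
    (S : Set (Fin 2 × Fin 3 → ℤ))
    (hS : ∀ A ∈ S, Indep (fun j => A (0, j)) (fun j => A (1, j)) ∧ ∃ p : Fin 3 → ℤ, Prim p ∧
      (∑ j, p j * A (0, j) = 0) ∧ (∑ j, p j * A (1, j) = 0) ∧
        MvPolynomial.eval (fun j => (p j : K)) Q = 0) :
    ∃ C : ℕ, ∀ H : ℕ, 1 ≤ H → ∀ F : Finset (Fin 2 × Fin 3 → ℤ),
      (∀ A ∈ F, A ∈ S ∧ ∀ x, |A x| ≤ H) → F.card ≤ C * (H ^ 4 * (Nat.log 2 H + 1)) := by
  classical
  choose! hI p hp hp0 hp1 hpQ using hS
  set d := Q.totalDegree with hd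
  refine ⟨3 * (25 * d * 7 ^ 4), fun H hH F hF => ?_⟩
  set L := Nat.log 2 H with hL
  -- dyadic pieces
  have hlog : ∀ A ∈ F, Nat.log 2 (size (p A)) ∈ Finset.range (2 * L + 3) := by
    intro A hA
    obtain ⟨hAS, hAH⟩ := hF A hA
    rw [Finset.mem_range]
    obtain ⟨j, hj⟩ := exists_size (p A)
    have h1 := cross_le (hp A hAS) (hp0 A hAS) (hp1 A hAS) (fun j => hAH _) (fun j => hAH _)
      (hI A hAS) j
    have h2 : size (p A) ≤ 2 * H ^ 2 := by
      rw [← hj]
      zify
      exact h1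
    have h3 : H < 2 ^ (L + 1) := Nat.lt_pow_succ_log_self (by norm_num) H
    have h4 : size (p A) < 2 ^ (2 * L + 3) := by
      calc size (p A) ≤ 2 * H ^ 2 := h2
        _ < 2 * (2 ^ (L + 1)) ^ 2 := by
            have := Nat.pow_lt_pow_left h3 (n := 2) (by norm_num)
            omega
        _ = 2 ^ (2 * L + 3) := by ring
    exact Nat.log_lt_of_lt_pow' (by omega) h4
  have hpiece : ∀ k ∈ Finset.range (2 * L + 3),
      (F.filter fun A => Nat.log 2 (size (p A)) = k).card ≤ 25 * d * 7 ^ 4 * H ^ 4 := by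
    intro k _
    set G := F.filter fun A => Nat.log 2 (size (p A)) = k with hG
    set P := G.image p with hP
    have hsz : ∀ A ∈ G, 2 ^ k ≤ size (p A) ∧ size (p A) ≤ 2 * 2 ^ k := by
      intro A hA
      rw [hG, Finset.mem_filter] at hA
      have hAS := (hF A hA.1).1
      have hne : size (p A) ≠ 0 := by
        intro h0
        obtain ⟨α, hα⟩ := hp A hAS
        have h1 : ∀ j, p A j = 0 := by
          intro j
          have h2 := le_size (p A) j
          rw [h0] at h2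
          simpa using h2
        simp [h1] at hα
      have h1 := Nat.pow_log_le_self 2 hne
      have h2 := Nat.lt_pow_succ_log_self (b := 2) (by norm_num) (size (p A))
      rw [hA.2] at h1 h2
      refine ⟨h1, ?_⟩
      rw [pow_succ] at h2
      omega
    have hPc : P.card ≤ 25 * d * 4 ^ k := by
      have h1 := sz Q hQ (2 * 2 ^ k) P (by
        intro a ha
        obtain ⟨A, hA, rfl⟩ := Finset.mem_image.1 ha
        have hA' := hA
        rw [hG, Finset.mem_filter] at hA'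
        refine ⟨fun j => ?_, hpQ A (hF A hA'.1).1⟩
        have h2 := (le_size (p A) j).trans (hsz A hA).2
        zify at h2
        push_cast
        exact h2) (by norm_num)
      have h2 : 2 * (2 * 2 ^ k) + 1 ≤ 5 * 2 ^ k := by
        have := Nat.one_le_two_pow (n := k)
        omega
      calc P.card ≤ d * (2 * (2 * 2 ^ k) + 1) ^ 2 := h1
        _ ≤ d * (5 * 2 ^ k) ^ 2 := Nat.mul_le_mul_left _ (Nat.pow_le_pow_left h2 2)
        _ = 25 * d * 4 ^ k := by
            rw [mul_pow, ← pow_mul, mul_comm k 2, pow_mul]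
            norm_num
            ring
    have hfib : ∀ q ∈ P, 4 ^ k * (G.filter fun A => p A = q).card ≤ 7 ^ 4 * H ^ 4 := by
      intro q hq
      obtain ⟨A0, hA0, rfl⟩ := Finset.mem_image.1 hq
      have hA0' := hA0
      rw [hG, Finset.mem_filter] at hA0'
      have h1 := fiber (p := p A0) (H := H) (hp A0 (hF A0 hA0'.1).1)
        (G.filter fun A => p A = p A0) (by
        intro A hA
        rw [Finset.mem_filter] at hA
        have hA' := hA.1
        rw [hG, Finset.mem_filter] at hA'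
        have hAS := hF A hA'.1
        refine ⟨hAS.2, hI A hAS.1, ?_, ?_⟩
        · rw [← hA.2]; exact hp0 A hAS.1
        · rw [← hA.2]; exact hp1 A hAS.1)
      have h2 : 4 ^ k ≤ size (p A0) ^ 2 := by
        have := Nat.pow_le_pow_left (hsz A0 hA0).1 2
        calc 4 ^ k = (2 ^ k) ^ 2 := by
              rw [← pow_mul, mul_comm k 2, pow_mul]
              norm_num
          _ ≤ _ := this
      calc 4 ^ k * (G.filter fun A => p A = p A0).card ≤
          size (p A0) ^ 2 * (G.filter fun A => p A = p A0).card := Nat.mul_le_mul_right _ h2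
        _ ≤ (6 * H + 1) ^ 4 := h1
        _ ≤ (7 * H) ^ 4 := Nat.pow_le_pow_left (by omega) 4
        _ = 7 ^ 4 * H ^ 4 := by ring
    have hsum : G.card = ∑ q ∈ P, (G.filter fun A => p A = q).card :=
      Finset.card_eq_sum_card_image p G
    have h3 : 4 ^ k * G.card ≤ 4 ^ k * (25 * d * 7 ^ 4 * H ^ 4) := by
      rw [hsum, Finset.mul_sum]
      calc ∑ q ∈ P, 4 ^ k * (G.filter fun A => p A = q).card ≤ ∑ q ∈ P, 7 ^ 4 * H ^ 4 :=
            Finset.sum_le_sum hfib
        _ = P.card * (7 ^ 4 * H ^ 4) := by rw [Finset.sum_const, smul_eq_mul]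
        _ ≤ (25 * d * 4 ^ k) * (7 ^ 4 * H ^ 4) := Nat.mul_le_mul_right _ hPc
        _ = 4 ^ k * (25 * d * 7 ^ 4 * H ^ 4) := by ring
    exact Nat.le_of_mul_le_mul_left h3 (by positivity)
  have hsum := Finset.card_eq_sum_card_fiberwise (f := fun A => Nat.log 2 (size (p A)))
    (s := F) (t := Finset.range (2 * L + 3)) (fun A hA => hlog A hA)
  calc F.card = ∑ k ∈ Finset.range (2 * L + 3),
        (F.filter fun A => Nat.log 2 (size (p A)) = k).card := hsum
    _ ≤ ∑ k ∈ Finset.range (2 * L + 3), 25 * d * 7 ^ 4 * H ^ 4 := Finset.sum_le_sum hpiece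
    _ = (2 * L + 3) * (25 * d * 7 ^ 4 * H ^ 4) := by
        rw [Finset.sum_const, Finset.card_range, smul_eq_mul]
    _ ≤ (3 * (L + 1)) * (25 * d * 7 ^ 4 * H ^ 4) := Nat.mul_le_mul_right _ (by omega)
    _ = 3 * (25 * d * 7 ^ 4) * (H ^ 4 * (L + 1)) := by ring

end Pool.Agent.J4.H56
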