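import Pool.Agent.J4.H56.Ult

/-!
# First rows with one fixed entry
-/

set_option autoImplicit false

namespace Pool.Agent.J4.H56

open Filter Module Pool.Agent.Y787.GL Pool.Agent.Y787.FE
open Pool.Agent.Y787 (QC mem_QC HypC hyperplane hyperplane')
open Pool.Agent.R350 (BadRow suppI suppI_bound suppI_le second_mem hypV_of_hypC)

variable {Cc : Type} [Field Cc] [CharZero Cc] [IsAlgClosed Cc] {Lt : Submodule (QC Cc) Cc}
  [HypC Lt]

/-- **First rows with a fixed entry** form a family of dimension at most four. -/
theorem fixed_dim' {M : ℕ} (l' : Fin M → Cc) (hl : LinearIndependent (QC Cc) l')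
    (hl' : ∀ j, l' j ∈ Lt) (x₀ : Cc) (hx₀ : x₀ ∈ Lt)
    (φ : Fin 5 → ((Fin M → (QC Cc)) →ₗ[(QC Cc)] (QC Cc))) :
    ∃ P : MvPolynomial (Fin 5) (QC Cc), P ≠ 0 ∧
      ∀ b : Fin M → QC Cc, BadRow Lt x₀ (cmb l' b) → MvPolynomial.eval (fun i => φ i b) P = 0 := by
  classical
  by_contra hcon
  push Not at hcon
  set ι : Type := {b : Fin M → (QC Cc) // BadRow Lt x₀ (cmb l' b)} with hι
  obtain ⟨𝒰, hgen⟩ := exists_ultra' (ι := ι) (fun b i => φ i b.1) (by
    intro P hP
    obtain ⟨b, h1, h2⟩ := hcon P hP
    exact ⟨⟨b, h1⟩, h2⟩)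
  obtain ⟨D, g, hg, hD2, hDc, hφ⟩ := exists_system 𝒰 (fun b : ι => b.1) φ hgen
  -- the second row
  have hbad : ∀ b : ι, BadRow Lt x₀ (cmb l' b.1) := fun b => b.2
  choose w hw z hz hc using hbad
  set W : Submodule (QC Cc) Cc := Submodule.span (QC Cc) (Set.range l' ∪ {x₀}) with hW
  have hWf : FiniteDimensional (QC Cc) W :=
    FiniteDimensional.span_of_finite _ ((Set.finite_range l').union (Set.finite_singleton _))
  have hxW : x₀ ∈ W := Submodule.subset_span (Or.inr rfl)
  have hyW : ∀ b : ι, cmb l' b.1 ∈ W := fun b => by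
    rw [cmb]
    refine Submodule.sum_mem _ fun j _ => ?_
    rw [← Algebra.smul_def]
    exact W.smul_mem _ (Submodule.subset_span (Or.inl ⟨j, rfl⟩))
  have hfd := (suppI_bound (hypV_of_hypC (Lt := Lt)) W).1
  have hw' := fun b => (second_mem hxW (hyW b) (hw b) (hz b) (hc b)).1
  have hz' := fun b => (second_mem hxW (hyW b) (hw b) (hz b) (hc b)).2
  let B := Module.finBasis (QC Cc) (suppI Lt W)
  set e : Fin _ → Cc := fun j => ((B j : suppI Lt W) : Cc) with he
  have heL : ∀ j, e j ∈ Lt := fun j => suppI_le Lt W (B j).2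
  have hcmb : ∀ u : ι → Cc, (∀ b, u b ∈ suppI Lt W) → ∃ a : ι → Fin _ → QC Cc,
      u = fun b => cmb e (a b) := by
    intro u hu
    refine ⟨fun b j => B.repr ⟨u b, hu b⟩ j, ?_⟩
    funext b
    have h1 := B.sum_repr ⟨u b, hu b⟩
    have h2 := congrArg (fun v : suppI Lt W => (v : Cc)) h1
    simp only [Submodule.coe_sum, Submodule.coe_smul] at h2
    refine h2.symm.trans ?_
    rw [cmb]
    exact Finset.sum_congr rfl fun j _ => by rw [Algebra.smul_def]
  obtain ⟨aw, haw⟩ := hcmb w hw'
  obtain ⟨az, haz⟩ := hcmb z hz'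
  -- derivatives
  set y : ι → Cc := fun b => cmb l' b.1 with hy
  set dy : Fin 5 → ι → Cc := fun k b => cmb l' (fun m => g k (fun b => b.1 m) b) with hdy
  set dw : Fin 5 → ι → Cc := fun k b => cmb e (fun m => g k (fun b => aw b m) b) with hdw
  set dz : Fin 5 → ι → Cc := fun k b => cmb e (fun m => g k (fun b => az b m) b) with hdz
  have hHy : ∀ k, HD (D k) y (dy k) := fun k => hDc l' k (fun b m => b.1 m)
  have hHw : ∀ k, HD (D k) w (dw k) := fun k => by
    rw [haw]
    exact hDc e k (fun b m => aw b m)
  have hHz : ∀ k, HD (D k) z (dz k) := fun k => by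
    rw [haz]
    exact hDc e k (fun b m => az b m)
  have hHx : ∀ k, HD (D k) (fun _ => x₀) (fun _ => 0) := fun k => by
    unfold HD
    rw [hD2]
    exact (map_zero _).symm
  have hHq : ∀ k (α : ι → (QC Cc)), HD (D k) (up α) (up (g k α)) := fun k α => hg k α
  have hyL : ∀ b, y b ∈ Lt := fun b => cmb_mem_Lt' hl' _
  have hdyL : ∀ k b, dy k b ∈ Lt := fun k b => cmb_mem_Lt' hl' _
  have hdwL : ∀ k b, dw k b ∈ Lt := fun k b => cmb_mem_Lt' heL _
  have hdzL : ∀ k b, dz k b ∈ Lt := fun k b => cmb_mem_Lt' heL _
  -- independence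
  have hindep : ∀ᶠ b in (𝒰 : Filter ι), ∀ p : Fin 5 → (QC Cc),
      ∑ k, (p k : Cc) * dy k b = 0 → p = 0 := by
    refine hφ.mono fun b hb p hp => ?_
    refine eq_zero_of_dual φ (fun k j => g k (fun b => b.1 j) b) hb p ?_
    intro m
    rw [hdy] at hp
    simp only [cmb_sum] at hp
    exact congrFun (cmb_eq_zero hl hp) m
  have hrel : ∀ᶠ b in (𝒰 : Filter ι), ∀ k, x₀ * dz k b + z b * 0 = y b * dw k b + w b * dy k b := by
    rw [Filter.eventually_all]
    intro k
    exact HD.congr ((hHx k).mul (hHz k)) ((hHy k).mul (hHw k))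
      (Filter.Eventually.of_forall fun b => (hc b).1)
  have hall : ∀ᶠ b in (𝒰 : Filter ι), LinearIndependent (QC Cc) ![x₀, y b, w b] ∨
      ∃ α β : QC Cc, w b = (α : Cc) * x₀ + β * y b := by
    refine Filter.Eventually.of_forall fun b => ?_
    by_cases h3 : LinearIndependent (QC Cc) ![x₀, y b, w b]
    · exact Or.inl h3
    · right
      obtain ⟨q1, q2, q3, q4⟩ := (hc b).bad
      rw [li3_iff] at h3
      push Not at h3
      obtain ⟨a, b', c, h5, h6⟩ := h3
      have hc0 : c ≠ 0 := by
        rintro rfl
        by_cases hb : b' = 0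
        · subst hb
          have ha : a ≠ 0 := fun ha => h6 ha rfl rfl
          have ha' : (a : Cc) ≠ 0 := by exact_mod_cast ha
          push_cast at h5
          rw [zero_mul, zero_mul, add_zero, add_zero] at h5
          exact (mul_ne_zero ha' q1) h5
        · have hb' : (b' : Cc) ≠ 0 := by exact_mod_cast hb
          apply q3 (-a / b')
          push_cast at h5 ⊢
          field_simp
          linear_combination h5
      have hc' : (c : Cc) ≠ 0 := by exact_mod_cast hc0
      refine ⟨-a / c, -b' / c, ?_⟩
      push_cast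
      field_simp
      linear_combination h5
  rcases Ultrafilter.eventually_or.1 hall with h | h
  · -- independent entries
    obtain ⟨b, hb, hb1, hb2⟩ := (h.and (hrel.and hindep)).exists
    have hbs := (hc b).swapc.bad
    let A : Fin 5 ⊕ Fin 2 → Fin 3 → Cc := Sum.elim (fun k => ![dz k b, -dw k b, -dy k b])
      ![![y b, -x₀, 0], ![z b, -w b, 0]]
    have h1 := hyperplane' (Lt := Lt) (κ := Fin 5 ⊕ Fin 2) 3 ![x₀, y b, w b]
      (fun i j => A j i) hb ?_ ?_ ?_
    · rw [Fintype.card_sum, Fintype.card_fin, Fintype.card_fin] at h1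
      omega
    · intro i j
      have hx' := Lt.neg_mem hx₀
      have hw1 := Lt.neg_mem (hw b)
      have h0 := Lt.zero_mem
      rcases j with j | j
      · fin_cases i
        · exact hdzL j b
        · exact Lt.neg_mem (hdwL j b)
        · exact Lt.neg_mem (hdyL j b)
      · fin_cases j <;> fin_cases i
        · exact hyL b
        · exact hx'
        · exact h0
        · exact hz b
        · exact hw1
        · exact h0
    · intro j
      rcases j with j | j
      · rw [Fin.sum_univ_three]
        change x₀ * dz j b + y b * (-dw j b) + w b * (-dy j b) = 0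
        linear_combination hb1 j
      · fin_cases j
        · rw [Fin.sum_univ_three]
          change x₀ * y b + y b * (-x₀) + w b * 0 = 0
          ring
        · rw [Fin.sum_univ_three]
          change x₀ * z b + y b * (-w b) + w b * 0 = 0
          linear_combination (hc b).1
    · rw [Fintype.linearIndependent_iff]
      intro p hp
      rw [Fintype.sum_sum_type] at hp
      have hcc : ∀ i, ∑ j, p (Sum.inl j) • A (Sum.inl j) i + ∑ j, p (Sum.inr j) • A (Sum.inr j) i
          = 0 := by
        intro i
        have := congrFun hp i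
        simpa [Finset.sum_apply] using this
      have h3 := hcc 2
      rw [Fin.sum_univ_two] at h3
      have hz0 : ∑ j, (p (Sum.inl j) : Cc) * dy j b = 0 := by
        have e1 : ∑ j, p (Sum.inl j) • A (Sum.inl j) 2 = -∑ j, (p (Sum.inl j) : Cc) * dy j b := by
          rw [← Finset.sum_neg_distrib]
          refine Finset.sum_congr rfl fun j _ => ?_
          change p (Sum.inl j) • (-dy j b) = _
          rw [Algebra.smul_def, mul_neg]
          rfl
        have e2 : p (Sum.inr 0) • A (Sum.inr 0) 2 + p (Sum.inr 1) • A (Sum.inr 1) 2 = 0 := by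
          change p (Sum.inr 0) • (0 : Cc) + p (Sum.inr 1) • (0 : Cc) = 0
          rw [smul_zero, smul_zero, add_zero]
        rw [e1, e2, add_zero, neg_eq_zero] at h3
        exact h3
      have hp0 := hb2 _ hz0
      have hp0' : ∀ j, p (Sum.inl j) = 0 := fun j => congrFun hp0 j
      have h4 := hcc 0
      simp only [hp0', zero_smul, Finset.sum_const_zero, zero_add, Fin.sum_univ_two] at h4
      have h5 : (p (Sum.inr 0) : Cc) * y b + (p (Sum.inr 1) : Cc) * z b = 0 := by
        have e3 : p (Sum.inr 0) • A (Sum.inr 0) 0 + p (Sum.inr 1) • A (Sum.inr 1) 0 =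
            (p (Sum.inr 0) : Cc) * y b + (p (Sum.inr 1) : Cc) * z b := by
          change p (Sum.inr 0) • y b + p (Sum.inr 1) • z b = _
          rw [Algebra.smul_def, Algebra.smul_def]
          rfl
        rw [← e3]
        exact h4
      have h6 : p (Sum.inr 1) = 0 := by
        by_contra h6
        have h6' : (p (Sum.inr 1) : Cc) ≠ 0 := by exact_mod_cast h6
        apply hbs.2.2.2 (-p (Sum.inr 0) / p (Sum.inr 1))
        push_cast
        field_simp
        linear_combination h5
      have h7 : p (Sum.inr 0) = 0 := by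
        rw [h6] at h5
        push_cast at h5
        rw [zero_mul, add_zero] at h5
        have := (mul_eq_zero.1 h5).resolve_right hbs.1
        exact_mod_cast this
      intro j
      rcases j with j | j
      · exact hp0' j
      · fin_cases j
        · exact h7
        · exact h6
  · -- dependent entries
    have hex : ∀ b : ι, (∃ α β : QC Cc, w b = (α : Cc) * x₀ + β * y b) →
      ∃ α β : QC Cc, w b = (α : Cc) * x₀ + β * y b := fun b hb => hb
    choose! α β hαβ using hex
    have hder : ∀ᶠ b in (𝒰 : Filter ι), ∀ k, dw k b =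
        (α b : Cc) * 0 + x₀ * (g k α b : Cc) + ((β b : Cc) * dy k b + y b * (g k β b : Cc)) := by
      rw [Filter.eventually_all]
      intro k
      exact HD.congr (hHw k) (((hHq k α).mul (hHx k)).add ((hHq k β).mul (hHy k)))
        (h.mono fun b hb => hαβ b hb)
    obtain ⟨b, hb, hb1, hb2, hb3⟩ := (h.and (hrel.and (hindep.and hder))).exists
    have hwb := hαβ b hb
    obtain ⟨q1, q2, q3, q4⟩ := (hc b).bad
    have hβ : (β b : Cc) ≠ 0 := by
      intro h0
      apply q4 (α b)
      rw [hwb, h0, zero_mul, add_zero]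
    -- `y ^ 2 = x₀ (z - α y) / β`
    have hyy : (β b : Cc) * (y b * y b) = x₀ * (z b - α b * y b) := by
      have h1 := (hc b).1
      rw [hwb] at h1
      linear_combination -h1
    have hξ : LinearIndependent (QC Cc) ![y b, x₀] := by
      rw [LinearIndependent.pair_iff]
      intro s t hst
      rw [Algebra.smul_def, Algebra.smul_def] at hst
      have hs : s = 0 := by
        by_contra hs
        have hs' : (s : Cc) ≠ 0 := by exact_mod_cast hs
        apply q3 (-t / s)
        push_cast
        change (s : Cc) * y b + (t : Cc) * x₀ = 0 at hst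
        field_simp
        linear_combination hst
      refine ⟨hs, ?_⟩
      rw [hs, map_zero, zero_mul, zero_add] at hst
      have := (mul_eq_zero.1 hst).resolve_right q1
      rwa [map_eq_zero] at this
    have := rank_bound (Lt := Lt) (d := 2) (s := 0) (n := 5) ![y b, x₀] hξ
      (fun k => ![(β b : Cc) * dy k b + (β b : Cc) * dy k b,
        -(dz k b - (α b : Cc) * dy k b - (g k α b : Cc) * y b -
          ((g k β b / β b : QC Cc) : Cc) * (z b - (α b : Cc) * y b))]) (by
        intro k i
        fin_cases i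
        · exact Lt.add_mem (smul_Lt _ (hdyL _ _)) (smul_Lt _ (hdyL _ _))
        · exact Lt.neg_mem (Lt.sub_mem (Lt.sub_mem (Lt.sub_mem (hdzL _ _) (smul_Lt _ (hdyL _ _)))
            (smul_Lt _ (hyL _))) (smul_Lt _ (Lt.sub_mem (hz _) (smul_Lt _ (hyL _)))))) (by
        intro k
        rw [Fin.sum_univ_two]
        simp only [Matrix.cons_val_zero, Matrix.cons_val_one]
        have h1 := hb1 k
        rw [hb3 k, hwb] at h1
        push_cast
        field_simp
        linear_combination (-(β b : Cc)) * h1 - (g k β b : Cc) * hyy) (fun _ => isEmptyElim) (by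
        intro p hp _
        refine hb2 p ?_
        have h0 := hp 0
        simp only [Matrix.cons_val_zero] at h0
        have h1 : (2 * (β b : Cc)) * ∑ k, (p k : Cc) * dy k b = 0 := by
          rw [← h0, Finset.mul_sum]
          refine Finset.sum_congr rfl fun k _ => ?_
          ring
        exact (mul_eq_zero.1 h1).resolve_left (mul_ne_zero two_ne_zero hβ))
    omega

end Pool.Agent.J4.H56
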