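import Mathlib

/-!
# Homogeneous equations of cones
-/

set_option autoImplicit false

namespace Pool.Agent.J4.H56

theorem eval_scale {K σ : Type*} [Field K] {n : ℕ} {P : MvPolynomial σ K} (hP : P.IsHomogeneous n)
    (g : K) (x : σ → K) :
    MvPolynomial.eval (fun j => g * x j) P = g ^ n * MvPolynomial.eval x P := by
  classical
  rw [MvPolynomial.eval_eq, MvPolynomial.eval_eq, Finset.mul_sum]
  refine Finset.sum_congr rfl fun s hs => ?_
  have h1 : s.degree = n := by
    rw [Finsupp.degree_eq_weight_one]
    exact hP (MvPolynomial.mem_support_iff.1 hs)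
  simp only [mul_pow, Finset.prod_mul_distrib]
  rw [Finset.prod_pow_eq_pow_sum]
  have h2 : ∑ i ∈ s.support, s i = n := by
    rw [← h1]
    rfl
  rw [h2]
  ring

/-- the points of a cone on a hypersurface are on a hypersurface with homogeneous equation -/
theorem homog {K σ : Type*} [Field K] [CharZero K] (P : MvPolynomial σ K) (hP : P ≠ 0) :
    ∃ (d : ℕ) (R : MvPolynomial σ K), R ≠ 0 ∧ R.IsHomogeneous d ∧ ∀ x : σ → K,
      (∀ g : K, g ≠ 0 → MvPolynomial.eval (fun j => g * x j) P = 0) →
        MvPolynomial.eval x R = 0 := by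
  classical
  obtain ⟨d, hd⟩ : ∃ d, MvPolynomial.homogeneousComponent d P ≠ 0 := by
    by_contra h
    push Not at h
    apply hP
    rw [← MvPolynomial.sum_homogeneousComponent P]
    exact Finset.sum_eq_zero fun i _ => h i
  refine ⟨d, MvPolynomial.homogeneousComponent d P, hd,
    MvPolynomial.homogeneousComponent_isHomogeneous d P, fun x hx => ?_⟩
  set Q : Polynomial K := ∑ i ∈ Finset.range (P.totalDegree + 1),
    Polynomial.C (MvPolynomial.eval x (MvPolynomial.homogeneousComponent i P)) *
      Polynomial.X ^ i with hQ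
  have hQe : ∀ g, Q.eval g = MvPolynomial.eval (fun j => g * x j) P := by
    intro g
    conv_rhs => rw [← MvPolynomial.sum_homogeneousComponent P]
    rw [map_sum, hQ, Polynomial.eval_finsetSum]
    refine Finset.sum_congr rfl fun i _ => ?_
    rw [eval_scale (MvPolynomial.homogeneousComponent_isHomogeneous i P)]
    simp only [Polynomial.eval_mul, Polynomial.eval_C, Polynomial.eval_pow, Polynomial.eval_X]
    ring
  have hQ0 : Q = 0 := by
    apply Polynomial.eq_zero_of_infinite_isRoot
    refine Set.Infinite.mono (s := {g : K | g ≠ 0}) ?_ ?_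
    · intro g hg
      exact (hQe g).trans (hx g hg)
    · exact (Set.finite_singleton (0 : K)).infinite_compl
  by_cases hdeg : d ∈ Finset.range (P.totalDegree + 1)
  · have h1 := congrArg (fun R => Polynomial.coeff R d) hQ0
    simp only [hQ, Polynomial.finsetSum_coeff, Polynomial.coeff_C_mul, Polynomial.coeff_X_pow,
      Polynomial.coeff_zero] at h1
    rw [Finset.sum_eq_single d] at h1
    · simpa using h1
    · intro j _ hj
      rw [if_neg (Ne.symm hj), mul_zero]
    · intro h8
      exact absurd hdeg h8
  · rw [Finset.mem_range, not_lt] at hdeg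
    exact absurd (MvPolynomial.homogeneousComponent_eq_zero d P (by omega)) hd

end Pool.Agent.J4.H56
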