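import Mathlib
import Pool.Agent.J4.H56.Abs

/-!
# Planes of logarithms in general position: the algebraic core
-/

set_option autoImplicit false

namespace Pool.Agent.J4.H56

open Polynomial

variable {F Ω : Type*} [Field F] [Field Ω] [CharZero Ω] [Algebra F Ω]

/-- the hyperplane property -/
def Hyper (L : Submodule F Ω) : Prop :=
  ∀ (d l : ℕ) (x : Fin d → Ω) (a : Fin d → Fin l → Ω), LinearIndependent F x →
    (∀ i j, a i j ∈ L) → (∀ j, ∑ i, x i * a i j = 0) →
    LinearIndependent F (fun j i => a i j) → l ≤ d * (d - 1)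

omit [CharZero Ω] in
/-- the six exponentials theorem -/
theorem six {L : Submodule F Ω} (hyp : Hyper L) {t : Ω} (ht : ∀ c : F, t ≠ algebraMap F Ω c)
    (u : Fin 3 → Ω) (hu : ∀ i, u i ∈ L) (htu : ∀ i, t * u i ∈ L) :
    ∃ c : Fin 3 → F, c ≠ 0 ∧ ∑ i, c i • u i = 0 := by
  by_contra hcon
  push Not at hcon
  have h1 := hyp 2 3 ![t, -1] (fun i j => ![u j, t * u j] i) (by
    rw [LinearIndependent.pair_iff]
    intro a b hab
    have ha : a = 0 := by
      by_contra ha
      refine ht (b / a) ?_
      have ha' : algebraMap F Ω a ≠ 0 := by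
        rw [Ne, map_eq_zero]; exact ha
      rw [map_div₀, eq_div_iff ha']
      rw [Algebra.smul_def, Algebra.smul_def] at hab
      linear_combination hab
    refine ⟨ha, ?_⟩
    rw [ha, zero_smul, zero_add, Algebra.smul_def, mul_neg, mul_one, neg_eq_zero,
      map_eq_zero] at hab
    exact hab) (by
    intro i j
    fin_cases i
    · exact hu j
    · exact htu j) (by
    intro j
    rw [Fin.sum_univ_two]
    simp) (by
    rw [Fintype.linearIndependent_iff]
    intro g hg
    by_contra hg0
    push Not at hg0
    refine hcon g (fun h => ?_) ?_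
    · obtain ⟨i, hi⟩ := hg0
      exact hi (by rw [h]; rfl)
    · have h2 := congrFun hg 0
      rw [Finset.sum_apply] at h2
      simpa using h2)
  omega

omit [CharZero Ω] in
/-- the hyperplane theorem for three coefficients -/
theorem seven {L : Submodule F Ω} (hyp : Hyper L) (ξ : Fin 3 → Ω) (hξ : LinearIndependent F ξ)
    (A : Fin 7 → Fin 3 → Ω) (hA : ∀ j i, A j i ∈ L) (hrel : ∀ j, ∑ i, ξ i * A j i = 0) :
    ∃ c : Fin 7 → F, c ≠ 0 ∧ ∀ i, ∑ j, c j • A j i = 0 := by
  by_contra hcon
  push Not at hcon
  have h1 := hyp 3 7 ξ (fun i j => A j i) hξ (fun i j => hA j i) hrel (by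
    rw [Fintype.linearIndependent_iff]
    intro g hg
    by_contra hg0
    push Not at hg0
    obtain ⟨i, hi⟩ := hcon g (fun h => by
      obtain ⟨i, hi⟩ := hg0
      exact hi (by rw [h]; rfl))
    apply hi
    have h2 := congrFun hg i
    rw [Finset.sum_apply] at h2
    simpa using h2)
  omega

/-- **The algebraic core.** -/
theorem no_plane {L : Submodule F Ω} (hyp : Hyper L)
    (hT : ∀ z : Ω, (∀ c : F, z ≠ algebraMap F Ω c) → Transcendental F z)
    {Da Db : Derivation ℤ Ω Ω} (hDa : PresF F Da) (hDb : PresF F Db)
    (hDaL : ∀ w ∈ L, Da w ∈ L) (hDbL : ∀ w ∈ L, Db w ∈ L)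
    {x y v : Ω} (hx : x ∈ L) (hy : y ∈ L) (hv : v ∈ L) (hli : LinearIndependent F ![x, y, v])
    (hax : Da x = v) (hay : Da y = 0) (hav : Da v = 0)
    (hbx : Db x = 0) (hby : Db y = v) (hbv : Db v = 0)
    {t : Ω} (htx : t * x ∈ L) (hty : t * y ∈ L) : ∃ c : F, t = algebraMap F Ω c := by
  classical
  by_contra hcon
  push Not at hcon
  -- notation for the field `F`
  have hsm : ∀ (c : F) (w : Ω), c • w = algebraMap F Ω c * w := fun c w => Algebra.smul_def c w
  have hLm : ∀ (c : F) (w : Ω), w ∈ L → algebraMap F Ω c * w ∈ L := fun c w hw => by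
    rw [← hsm]
    exact L.smul_mem c hw
  have li3 : ∀ a b c : F, algebraMap F Ω a * x + algebraMap F Ω b * y + algebraMap F Ω c * v = 0 →
      a = 0 ∧ b = 0 ∧ c = 0 := by
    intro a b c habc
    rw [Fintype.linearIndependent_iff] at hli
    have h1 := hli ![a, b, c] (by
      rw [Fin.sum_univ_three]
      simp only [Matrix.cons_val_zero, Matrix.cons_val_one, Matrix.cons_val_two,
        Matrix.head_cons, Matrix.tail_cons, hsm]
      exact habc)
    exact ⟨h1 0, h1 1, h1 2⟩
  have hy0 : y ≠ 0 := by
    intro h0
    have := li3 0 1 0 (by rw [h0]; simp)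
    exact one_ne_zero this.2.1
  have hchF := charZeroF F Ω
  set z := x / y with hz
  have hzF : ∀ c : F, z ≠ algebraMap F Ω c := by
    intro c hc
    rw [hz, div_eq_iff hy0] at hc
    have := li3 1 (-c) 0 (by rw [hc]; simp)
    exact one_ne_zero this.1
  have hzT := hT z hzF
  have hxz : x = z * y := by rw [hz]; field_simp
  set E := IntermediateField.adjoin F {z} with hE
  have hzE : z ∈ E := IntermediateField.mem_adjoin_simple_self F z
  have hFE : ∀ c : F, algebraMap F Ω c ∈ E := fun c => E.algebraMap_mem c
  have hpoly : ∀ P : F[X], aeval z P ∈ E := fun P =>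
    (IntermediateField.mem_adjoin_simple_iff F _).2 ⟨P, 1, by rw [map_one, div_one]⟩
  -- the derivative of `z`
  have haz : Da z = v / y := by
    have h1 : Da x = Da (z * y) := by rw [← hxz]
    rw [Da.leibniz, hax, hay, smul_zero, zero_add, smul_eq_mul] at h1
    rw [h1]
    field_simp
  have hazz : Da (Da z) = 0 := by
    have h1 : Da z * y = v := by rw [haz]; field_simp
    have h2 : Da (Da z * y) = 0 := by rw [h1, hav]
    rw [Da.leibniz, hay, smul_zero, zero_add, smul_eq_mul] at h2
    exact (mul_eq_zero.1 h2).resolve_left hy0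
  -- final step
  have final : Da z ∈ E → False := by
    intro h1
    obtain ⟨a, b, h2⟩ := dz_linear hDa hzT h1 hazz
    rw [haz] at h2
    have h3 : v = algebraMap F Ω a * y + algebraMap F Ω b * x := by
      rw [hxz, ← mul_assoc, ← add_mul, ← h2]
      field_simp
    have := li3 b a (-1) (by rw [h3]; rw [map_neg, map_one]; ring)
    exact one_ne_zero (neg_eq_zero.1 this.2.2)
  set lam := t * x with hlam
  set mu := t * y with hmu
  -- derivatives of `t x`, `t y`
  have ea1 : Da lam = Da t * x + t * v := by
    rw [hlam, Da.leibniz, hax, smul_eq_mul, smul_eq_mul]; ring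
  have ea2 : Da mu = Da t * y := by
    rw [hmu, Da.leibniz, hay, smul_zero, zero_add, smul_eq_mul]; ring
  have eb1 : Db lam = Db t * x := by
    rw [hlam, Db.leibniz, hbx, smul_zero, zero_add, smul_eq_mul]; ring
  have eb2 : Db mu = Db t * y + t * v := by
    rw [hmu, Db.leibniz, hby, smul_eq_mul, smul_eq_mul]; ring
  have ma1 := hDaL lam htx
  have ma2 := hDaL mu hty
  have mb1 := hDbL lam htx
  have mb2 := hDbL mu hty
  have eaa1 : Da (Da lam) = Da (Da t) * x + 2 * Da t * v := by
    rw [ea1, map_add, Da.leibniz, Da.leibniz, hax, hav, smul_zero, zero_add, smul_eq_mul,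
      smul_eq_mul, smul_eq_mul]; ring
  have eaa2 : Da (Da mu) = Da (Da t) * y := by
    rw [ea2, Da.leibniz, hay, smul_zero, zero_add, smul_eq_mul]; ring
  have ebb1 : Db (Db lam) = Db (Db t) * x := by
    rw [eb1, Db.leibniz, hbx, smul_zero, zero_add, smul_eq_mul]; ring
  have ebb2 : Db (Db mu) = Db (Db t) * y + 2 * Db t * v := by
    rw [eb2, map_add, Db.leibniz, Db.leibniz, hby, hbv, smul_zero, zero_add, smul_eq_mul,
      smul_eq_mul, smul_eq_mul]; ring
  have eab1 : Db (Da lam) = Db (Da t) * x + Db t * v := by
    rw [ea1, map_add, Db.leibniz, Db.leibniz, hbx, hbv, smul_zero, smul_zero, zero_add, zero_add,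
      smul_eq_mul, smul_eq_mul]; ring
  have eab2 : Db (Da mu) = Db (Da t) * y + Da t * v := by
    rw [ea2, Db.leibniz, hby, smul_eq_mul, smul_eq_mul]; ring
  have maa1 := hDaL _ ma1
  have maa2 := hDaL _ ma2
  have mbb1 := hDbL _ mb1
  have mbb2 := hDbL _ mb2
  have mab1 := hDbL _ ma1
  have mab2 := hDbL _ ma2
  -- the six relations
  let R : Fin 6 → Fin 3 → Ω := ![![y, -x, 0], ![v, 0, -x], ![0, v, -y], ![mu, -lam, 0],
    ![Da mu, -Da lam, mu], ![Db mu, -Db lam, -lam]]
  have hRL : ∀ j i, R j i ∈ L := by
    have h0 := L.zero_mem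
    have hx' := L.neg_mem hx
    have hy' := L.neg_mem hy
    have hl' := L.neg_mem htx
    have ha' := L.neg_mem ma1
    have hb' := L.neg_mem mb1
    intro j i
    fin_cases j <;> fin_cases i <;>
      first
        | exact hx
        | exact hy
        | exact hv
        | exact h0
        | exact hx'
        | exact hy'
        | exact hl'
        | exact ha'
        | exact hb'
        | exact htx
        | exact hty
        | exact ma1
        | exact ma2
        | exact mb1
        | exact mb2
  have hRrel : ∀ j, ∑ i, ![x, y, v] i * R j i = 0 := by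
    intro j
    rw [Fin.sum_univ_three]
    fin_cases j
    · simp [R]; ring
    · simp [R]; ring
    · simp [R]; ring
    · simp [R]; rw [hlam, hmu]; ring
    · simp [R]; rw [ea1, ea2, hmu]; ring
    · simp [R]; rw [eb1, eb2, hlam]; ring
  by_cases hdep : ∃ c : Fin 6 → F, c ≠ 0 ∧ ∀ i, ∑ j, c j • R j i = 0
  · -- the six relations are dependent
    obtain ⟨c, hc0, hc⟩ := hdep
    have c0 := hc 0
    have c2 := hc 2
    rw [Fin.sum_univ_six] at c0 c2
    simp only [R, hsm] at c0 c2
    simp only [Fin.isValue, Matrix.cons_val_zero, Matrix.cons_val_one, Matrix.cons_val] at c0 c2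
    have key : algebraMap F Ω (c 4) * mu - algebraMap F Ω (c 5) * lam =
        algebraMap F Ω (c 1) * x + algebraMap F Ω (c 2) * y := by
      linear_combination c2
    set A := c 4 with hA
    set B := c 5 with hB
    set p := c 1 with hp
    set q := c 2 with hq
    have hAB : ¬ (A = 0 ∧ B = 0) := by
      rintro ⟨h1, h2⟩
      rw [h1, h2] at key
      rw [map_zero, zero_mul, zero_mul, sub_zero] at key
      obtain ⟨h3, h4, -⟩ := li3 p q 0 (by rw [map_zero, zero_mul, add_zero]; exact key.symm)
      rw [h3, h1, h2, map_zero] at c0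
      have h5 : algebraMap F Ω (c 0) * y + algebraMap F Ω (c 3) * mu = 0 := by
        linear_combination c0
      by_cases h6 : c 3 = 0
      · have h7 : c 0 = 0 := by
          rw [h6, map_zero, zero_mul, add_zero] at h5
          have := (mul_eq_zero.1 h5).resolve_right hy0
          rwa [map_eq_zero] at this
        apply hc0
        funext i
        fin_cases i
        · exact h7
        · exact h3
        · exact h4
        · exact h6
        · exact h1
        · exact h2
      · refine hcon (-c 0 / c 3) ?_
        have h6' : algebraMap F Ω (c 3) ≠ 0 := by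
          rw [Ne, map_eq_zero]; exact h6
        rw [map_div₀, eq_div_iff h6', map_neg]
        apply mul_right_cancel₀ hy0
        rw [hmu] at h5
        linear_combination h5
    clear_value A B p q
    clear hc0 hc c0 c2 hA hB hp hq c
    set δ := p * A + q * B with hδ
    set l := algebraMap F Ω A * y - algebraMap F Ω B * x with hl
    set m := algebraMap F Ω p * x + algebraMap F Ω q * y with hm
    have htl : t * l = m := by
      rw [← key, hl, hlam, hmu]; ring
    have hl0 : l ≠ 0 := by
      intro h0
      have := li3 (-B) A 0 (by rw [← h0, hl, map_neg, map_zero]; ring)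
      exact hAB ⟨this.2.1, neg_eq_zero.1 this.1⟩
    have hδ0 : δ ≠ 0 := by
      intro h0
      by_cases hA0 : A = 0
      · have hB0 : B ≠ 0 := fun h => hAB ⟨hA0, h⟩
        have hq0 : q = 0 := by
          rw [hδ, hA0, mul_zero, zero_add] at h0
          exact (mul_eq_zero.1 h0).resolve_right hB0
        have hB' : algebraMap F Ω B ≠ 0 := by rw [Ne, map_eq_zero]; exact hB0
        refine hcon (-p / B) ?_
        rw [map_div₀, eq_div_iff hB', map_neg]
        have hx0 : x ≠ 0 := by
          intro hx0
          have := li3 1 0 0 (by rw [hx0]; simp)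
          exact one_ne_zero this.1
        apply mul_right_cancel₀ hx0
        rw [hl, hm, hA0, hq0, map_zero] at htl
        linear_combination -htl
      · have hA' : algebraMap F Ω A ≠ 0 := by rw [Ne, map_eq_zero]; exact hA0
        refine hcon (q / A) ?_
        rw [map_div₀, eq_div_iff hA']
        apply mul_right_cancel₀ hl0
        have h1 : algebraMap F Ω p * algebraMap F Ω A + algebraMap F Ω q * algebraMap F Ω B = 0 := by
          rw [← map_mul, ← map_mul, ← map_add, ← hδ, h0, map_zero]
        rw [mul_right_comm, htl, hm, hl]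
        linear_combination x * h1
    have hδ' : algebraMap F Ω δ ≠ 0 := by rw [Ne, map_eq_zero]; exact hδ0
    have hδe : algebraMap F Ω δ = algebraMap F Ω p * algebraMap F Ω A +
        algebraMap F Ω q * algebraMap F Ω B := by
      rw [hδ, map_add, map_mul, map_mul]
    have hxl : x = (algebraMap F Ω A * m - algebraMap F Ω q * l) / algebraMap F Ω δ := by
      rw [eq_div_iff hδ', hδe, hm, hl]; ring
    have hyl : y = (algebraMap F Ω p * l + algebraMap F Ω B * m) / algebraMap F Ω δ := by
      rw [eq_div_iff hδ', hδe, hm, hl]; ring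
    -- coordinates with respect to `l`, `m`
    have coord : ∀ r s : F, ∃ a b : F, algebraMap F Ω r * x + algebraMap F Ω s * y =
        algebraMap F Ω a * l + algebraMap F Ω b * m := by
      intro r s
      refine ⟨(s * p - r * q) / δ, (s * B + r * A) / δ, ?_⟩
      simp only [map_div₀, map_sub, map_add, map_mul]
      rw [hδe] at hδ' ⊢
      field_simp
      rw [hm, hl]
      ring
    obtain ⟨Aa, hAa⟩ := hDa A
    obtain ⟨Ba, hBa⟩ := hDa B
    obtain ⟨pa, hpa⟩ := hDa p
    obtain ⟨qa, hqa⟩ := hDa q
    obtain ⟨Ab, hAb⟩ := hDb A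
    obtain ⟨Bb, hBb⟩ := hDb B
    obtain ⟨pb, hpb⟩ := hDb p
    obtain ⟨qb, hqb⟩ := hDb q
    obtain ⟨a, b, hab⟩ := coord (-(A * Ba + B * Bb)) (A * Aa + B * Ab)
    obtain ⟨c, d, hcd⟩ := coord (A * pa + B * pb) (A * qa + B * qb)
    -- the derivation `D = A Da + B Db`
    have hDl : algebraMap F Ω A * Da l + algebraMap F Ω B * Db l =
        algebraMap F Ω a * l + algebraMap F Ω b * m := by
      rw [← hab, hl]
      simp only [map_sub, Derivation.leibniz, hax, hay, hbx, hby, hAa, hBa, hAb, hBb,
        smul_eq_mul, map_neg, map_add, map_mul]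
      ring
    have hDm : algebraMap F Ω A * Da m + algebraMap F Ω B * Db m =
        algebraMap F Ω c * l + algebraMap F Ω d * m + algebraMap F Ω δ * v := by
      rw [← hcd, hm, hδe]
      simp only [map_add, Derivation.leibniz, hax, hay, hbx, hby, hpa, hqa, hpb, hqb,
        smul_eq_mul, map_mul]
      ring
    set ν := t * m with hν
    have hνe : ν = algebraMap F Ω p * lam + algebraMap F Ω q * mu := by
      rw [hν, hm, hlam, hmu]; ring
    have hνL : ν ∈ L := by
      rw [hνe]
      exact L.add_mem (hLm _ _ htx) (hLm _ _ hty)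
    have hlL : l ∈ L := L.sub_mem (hLm _ _ hy) (hLm _ _ hx)
    have hmL : m ∈ L := L.add_mem (hLm _ _ hx) (hLm _ _ hy)
    set u := algebraMap F Ω (2 * c) * l + algebraMap F Ω (2 * d) * m +
      algebraMap F Ω (2 * δ) * v - algebraMap F Ω b * ν with hu
    have huL : u ∈ L := L.sub_mem (L.add_mem (L.add_mem (hLm _ _ hlL) (hLm _ _ hmL))
      (hLm _ _ hv)) (hLm _ _ hνL)
    have hDνL : algebraMap F Ω A * Da ν + algebraMap F Ω B * Db ν ∈ L :=
      L.add_mem (hLm _ _ (hDaL _ hνL)) (hLm _ _ (hDbL _ hνL))
    have htu : t * u = (algebraMap F Ω A * Da ν + algebraMap F Ω B * Db ν) +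
        algebraMap F Ω a * ν := by
      have e1 : Da (t * l) = Da m := by rw [htl]
      have e2 : Db (t * l) = Db m := by rw [htl]
      rw [Da.leibniz, smul_eq_mul, smul_eq_mul] at e1
      rw [Db.leibniz, smul_eq_mul, smul_eq_mul] at e2
      have e3 : Da ν = t * Da m + m * Da t := by
        rw [hν, Da.leibniz, smul_eq_mul, smul_eq_mul]
      have e4 : Db ν = t * Db m + m * Db t := by
        rw [hν, Db.leibniz, smul_eq_mul, smul_eq_mul]
      have e5 : l * (algebraMap F Ω A * Da t + algebraMap F Ω B * Db t) =
          algebraMap F Ω c * l + algebraMap F Ω d * m + algebraMap F Ω δ * v -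
            t * (algebraMap F Ω a * l + algebraMap F Ω b * m) := by
        rw [← hDl, ← hDm]
        linear_combination algebraMap F Ω A * e1 + algebraMap F Ω B * e2
      rw [hu, e3, e4]
      simp only [map_mul, map_ofNat]
      linear_combination (-t) * hDm - t * e5 +
        (t * algebraMap F Ω a + (algebraMap F Ω A * Da t + algebraMap F Ω B * Db t)) * htl
    obtain ⟨e, he0, he⟩ := six hyp hcon ![l, m, u] (by
      intro i
      fin_cases i
      · exact hlL
      · exact hmL
      · exact huL) (by
      intro i
      fin_cases i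
      · change t * l ∈ L
        rw [htl]; exact hmL
      · exact hνL
      · change t * u ∈ L
        rw [htu]
        exact L.add_mem hDνL (hLm _ _ hνL))
    rw [Fin.sum_univ_three] at he
    simp only [hsm, Matrix.cons_val_zero, Matrix.cons_val_one, Matrix.cons_val] at he
    have he2 : e 2 ≠ 0 := by
      intro h0
      rw [h0, map_zero, zero_mul, add_zero] at he
      have h1 := li3 (-(e 0 * B) + e 1 * p) (e 0 * A + e 1 * q) 0 (by
        rw [← he, hl, hm]
        simp only [map_add, map_neg, map_mul, map_zero]
        ring)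
      have h2 : e 0 * δ = 0 := by
        rw [hδ]; linear_combination q * (-1) * h1.1 + p * h1.2.1
      have h3 : e 1 * δ = 0 := by
        rw [hδ]; linear_combination A * h1.1 + B * h1.2.1
      apply he0
      funext i
      fin_cases i
      · exact (mul_eq_zero.1 h2).resolve_right hδ0
      · exact (mul_eq_zero.1 h3).resolve_right hδ0
      · exact h0
    have htE : t ∈ E := by
      have h1 : t = (algebraMap F Ω p * z + algebraMap F Ω q) /
          (algebraMap F Ω A - algebraMap F Ω B * z) := by
        have h2 : algebraMap F Ω A - algebraMap F Ω B * z ≠ 0 := by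
          intro h0
          apply hl0
          rw [hl, hxz]
          linear_combination y * h0
        rw [eq_div_iff h2]
        apply mul_right_cancel₀ hy0
        rw [hl, hm, hxz] at htl
        linear_combination htl
      rw [h1]
      exact E.div_mem (E.add_mem (E.mul_mem (hFE _) hzE) (hFE _))
        (E.sub_mem (hFE _) (E.mul_mem (hFE _) hzE))
    apply final
    have he2' : algebraMap F Ω (e 2) ≠ 0 := by rw [Ne, map_eq_zero]; exact he2
    have h2δ : algebraMap F Ω (2 * δ) ≠ 0 := by
      rw [Ne, map_eq_zero]
      exact mul_ne_zero two_ne_zero hδ0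
    have hvy : v / y = (algebraMap F Ω A - algebraMap F Ω B * z) *
        (algebraMap F Ω b * (t * t) - algebraMap F Ω (2 * d) * t - algebraMap F Ω (2 * c) -
          (algebraMap F Ω (e 0) + algebraMap F Ω (e 1) * t) / algebraMap F Ω (e 2)) /
        algebraMap F Ω (2 * δ) := by
      rw [eq_div_iff h2δ]
      have h1 : l = (algebraMap F Ω A - algebraMap F Ω B * z) * y := by
        rw [hl, hxz]; ring
      have h3 : m = t * ((algebraMap F Ω A - algebraMap F Ω B * z) * y) := by
        rw [← h1, htl]
      have h4 : algebraMap F Ω (2 * δ) * v = u - algebraMap F Ω (2 * c) * l -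
          algebraMap F Ω (2 * d) * m + algebraMap F Ω b * ν := by
        rw [hu]; ring
      have h5 : u = -(algebraMap F Ω (e 0) * l + algebraMap F Ω (e 1) * m) /
          algebraMap F Ω (e 2) := by
        rw [eq_div_iff he2']
        linear_combination he
      field_simp
      rw [mul_comm v, h4, h5, hν, h3, h1]
      field_simp
      ring
    rw [haz, hvy]
    have h6 : algebraMap F Ω A - algebraMap F Ω B * z ∈ E :=
      E.sub_mem (hFE _) (E.mul_mem (hFE _) hzE)
    have h7 : (algebraMap F Ω (e 0) + algebraMap F Ω (e 1) * t) / algebraMap F Ω (e 2) ∈ E :=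
      E.div_mem (E.add_mem (hFE _) (E.mul_mem (hFE _) htE)) (hFE _)
    exact E.div_mem (E.mul_mem h6 (E.sub_mem (E.sub_mem (E.sub_mem
      (E.mul_mem (hFE _) (E.mul_mem htE htE)) (E.mul_mem (hFE _) htE)) (hFE _)) h7)) (hFE _)
  · -- the six relations are independent
    have third : ∀ r : Fin 3 → Ω, (∀ i, r i ∈ L) → x * r 0 + y * r 1 + v * r 2 = 0 →
        ∃ a b c d : F, r 2 = algebraMap F Ω a * (t * x) + algebraMap F Ω b * (t * y) +
          algebraMap F Ω c * x + algebraMap F Ω d * y := by
      intro r hr hrel
      obtain ⟨c, hc0, hc⟩ := seven hyp ![x, y, v] hli (Fin.cons r R) (by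
        intro j
        refine Fin.cases ?_ (fun j => ?_) j
        · exact hr
        · exact hRL j) (by
        intro j
        refine Fin.cases ?_ (fun j => ?_) j
        · rw [Fin.sum_univ_three]
          exact hrel
        · exact hRrel j)
      have h0 : c 0 ≠ 0 := by
        intro h0
        apply hdep
        refine ⟨fun j => c j.succ, fun h => hc0 ?_, fun i => ?_⟩
        · funext j
          refine Fin.cases ?_ (fun j => ?_) j
          · exact h0
          · exact congrFun h j
        · have h1 := hc i
          rw [Fin.sum_univ_succ] at h1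
          simpa [h0] using h1
      have h1 := hc 2
      rw [Fin.sum_univ_succ, Fin.sum_univ_six] at h1
      simp only [Fin.cons_zero, Fin.cons_succ, hsm] at h1
      simp only [R, Fin.isValue, Matrix.cons_val_zero, Matrix.cons_val_one, Matrix.cons_val] at h1
      have h0' : algebraMap F Ω (c 0) ≠ 0 := by rw [Ne, map_eq_zero]; exact h0
      refine ⟨c (Fin.succ 5) / c 0, -c (Fin.succ 4) / c 0, c (Fin.succ 1) / c 0,
        c (Fin.succ 2) / c 0, ?_⟩
      simp only [map_div₀, map_neg]
      field_simp
      rw [hlam, hmu] at h1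
      linear_combination h1
    have two' : algebraMap F Ω 2 = 2 := map_ofNat _ 2
    obtain ⟨a1, a2, a3, a4, ha⟩ := third ![Da (Da mu), -Da (Da lam), 2 * Da mu] (by
      intro i
      fin_cases i
      · exact maa2
      · exact L.neg_mem maa1
      · change 2 * Da mu ∈ L
        rw [← two']
        exact hLm _ _ ma2) (by
      change x * Da (Da mu) + y * (-Da (Da lam)) + v * (2 * Da mu) = 0
      rw [eaa1, eaa2, ea2]; ring)
    obtain ⟨b1, b2, b3, b4, hb⟩ := third ![Db (Db mu), -Db (Db lam), -(2 * Db lam)] (by
      intro i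
      fin_cases i
      · exact mbb2
      · exact L.neg_mem mbb1
      · change -(2 * Db lam) ∈ L
        rw [← two']
        exact L.neg_mem (hLm _ _ mb1)) (by
      change x * Db (Db mu) + y * (-Db (Db lam)) + v * (-(2 * Db lam)) = 0
      rw [ebb1, ebb2, eb1]; ring)
    obtain ⟨d1, d2, d3, d4, hd⟩ := third ![Db (Da mu), -Db (Da lam), Db mu - Da lam] (by
      intro i
      fin_cases i
      · exact mab2
      · exact L.neg_mem mab1
      · exact L.sub_mem mb2 ma1) (by
      change x * Db (Da mu) + y * (-Db (Da lam)) + v * (Db mu - Da lam) = 0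
      rw [eab1, eab2, eb2, ea1]; ring)
    change 2 * Da mu = _ at ha
    change -(2 * Db lam) = _ at hb
    change Db mu - Da lam = _ at hd
    rw [ea2] at ha
    rw [eb1] at hb
    rw [eb2, ea1] at hd
    -- divide by `y`
    have E1 : 2 * Da t = algebraMap F Ω a1 * (t * z) + algebraMap F Ω a2 * t +
        algebraMap F Ω a3 * z + algebraMap F Ω a4 := by
      apply mul_right_cancel₀ hy0
      rw [hxz] at ha
      linear_combination ha
    have E2 : -(2 * (z * Db t)) = algebraMap F Ω b1 * (t * z) + algebraMap F Ω b2 * t +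
        algebraMap F Ω b3 * z + algebraMap F Ω b4 := by
      apply mul_right_cancel₀ hy0
      rw [hxz] at hb
      linear_combination hb
    have E3 : Db t - z * Da t = algebraMap F Ω d1 * (t * z) + algebraMap F Ω d2 * t +
        algebraMap F Ω d3 * z + algebraMap F Ω d4 := by
      apply mul_right_cancel₀ hy0
      rw [hxz] at hd
      linear_combination hd
    -- elimination
    set P1 : F[X] := C a1 * X ^ 3 + C (a2 + 2 * d1) * X ^ 2 + C (b1 + 2 * d2) * X + C b2 with hP1
    set P2 : F[X] := C a3 * X ^ 3 + C (a4 + 2 * d3) * X ^ 2 + C (b3 + 2 * d4) * X + C b4 with hP2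
    have hel : t * aeval z P1 + aeval z P2 = 0 := by
      rw [hP1, hP2]
      simp only [map_add, map_mul, map_pow, aeval_C, aeval_X, two']
      linear_combination (-1 : Ω) * E2 - (2 * z) * E3 - (z * z) * E1
    by_cases h1 : P1 = 0
    · have h2 : P2 = 0 := by
        rw [h1, map_zero, mul_zero, zero_add] at hel
        exact transcendental_iff.1 hzT _ hel
      have e1 : a1 = 0 := by
        have h5 := congrArg (fun P => coeff P 3) h1
        rw [hP1] at h5
        simp only [coeff_add, coeff_C_mul, coeff_X_pow, coeff_X, coeff_C, coeff_zero] at h5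
        norm_num at h5
        exact h5
      have e2 : a3 = 0 := by
        have h5 := congrArg (fun P => coeff P 3) h2
        rw [hP2] at h5
        simp only [coeff_add, coeff_C_mul, coeff_X_pow, coeff_X, coeff_C, coeff_zero] at h5
        norm_num at h5
        exact h5
      rw [e1, e2, map_zero, zero_mul, zero_mul, zero_add, add_zero] at E1
      -- `t v ∈ L`
      have htv : t * v ∈ L := by
        have h3 : t * v = Da lam - (algebraMap F Ω (a2 / 2) * lam + algebraMap F Ω (a4 / 2) * x) := by
          rw [ea1, map_div₀, map_div₀, two', hlam]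
          field_simp
          linear_combination (-x) * E1
        rw [h3]
        exact L.sub_mem ma1 (L.add_mem (hLm _ _ htx) (hLm _ _ hx))
      obtain ⟨e, he0, he⟩ := six hyp hcon ![x, y, v] (by
        intro i
        fin_cases i
        · exact hx
        · exact hy
        · exact hv) (by
        intro i
        fin_cases i
        · exact htx
        · exact hty
        · exact htv)
      apply he0
      funext i
      exact Fintype.linearIndependent_iff.1 hli e he i
    · have h2 : aeval z P1 ≠ 0 := fun h0 => h1 (transcendental_iff.1 hzT _ h0)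
      have htE : t ∈ E := by
        have h3 : t = -aeval z P2 / aeval z P1 := by
          rw [eq_div_iff h2]
          linear_combination hel
        rw [h3]
        exact E.div_mem (E.neg_mem (hpoly _)) (hpoly _)
      apply final
      refine dz_mem hDa hzT htE hcon ?_
      have h3 : Da t = (algebraMap F Ω a1 * (t * z) + algebraMap F Ω a2 * t +
        algebraMap F Ω a3 * z + algebraMap F Ω a4) / algebraMap F Ω 2 := by
        rw [two', ← E1]
        field_simp
      rw [h3]
      exact E.div_mem (E.add_mem (E.add_mem (E.add_mem (E.mul_mem (hFE _) (E.mul_mem htE hzE))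
        (E.mul_mem (hFE _) htE)) (E.mul_mem (hFE _) hzE)) (hFE _)) (hFE _)

end Pool.Agent.J4.H56
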