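import Pool.Agent.J4.H56.Appl
import Pool.Agent.J4.H56.Count
import Pool.Agent.R350.Inst

/-!
# Column operations, descent to rational coefficients
-/

set_option autoImplicit false

namespace Pool.Agent.J4.H56

open Module
open Pool.Agent.Y787 (QC mem_QC HypC hyperplane)
open Pool.Agent.Y787.FE (Ctr)
open Pool.Agent.R350 (BadRow)

section col

variable {Cc : Type} [Field Cc] [CharZero Cc] {Lt : Submodule (QC Cc) Cc}

/-- column operations -/
theorem badRow_col {x y : Cc} (h : BadRow Lt x y) (α β γ δ : QC Cc) (hdet : α * δ - β * γ ≠ 0) :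
    BadRow Lt ((α : Cc) * x + β * y) ((γ : Cc) * x + δ * y) := by
  obtain ⟨w, hw, z, hz, h1, h2, h3⟩ := h
  have hsm : ∀ (a : QC Cc) {v : Cc}, v ∈ Lt → (a : Cc) * v ∈ Lt := fun a v hv => by
    have := Lt.smul_mem a hv
    rwa [Algebra.smul_def] at this
  have hdet' : (α : Cc) * δ - β * γ ≠ 0 := by exact_mod_cast hdet
  refine ⟨(α : Cc) * w + β * z, Lt.add_mem (hsm _ hw) (hsm _ hz), (γ : Cc) * w + δ * z,
    Lt.add_mem (hsm _ hw) (hsm _ hz), by linear_combination ((α : Cc) * δ - β * γ) * h1,
    fun s t e1 e2 => ?_, fun s t e1 e2 => ?_⟩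
  · refine h2 s t ?_ ?_
    · apply mul_left_cancel₀ hdet'
      rw [mul_zero]
      linear_combination (δ : Cc) * e1 - (β : Cc) * e2
    · apply mul_left_cancel₀ hdet'
      rw [mul_zero]
      linear_combination (α : Cc) * e2 - (γ : Cc) * e1
  · obtain ⟨e3, e4⟩ := h3 (s * α + t * γ) (s * β + t * δ) (by push_cast; linear_combination e1)
      (by push_cast; linear_combination e2)
    refine ⟨?_, ?_⟩
    · have : s * (α * δ - β * γ) = 0 := by linear_combination δ * e3 - γ * e4
      exact (mul_eq_zero.1 this).resolve_right hdet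
    · have : t * (α * δ - β * γ) = 0 := by linear_combination α * e4 - β * e3
      exact (mul_eq_zero.1 this).resolve_right hdet

end col

/-- descent to rational coefficients -/
theorem descend {K : Type*} [Field K] [CharZero K] {σ : Type*} (Q : MvPolynomial σ K) (hQ : Q ≠ 0) :
    ∃ R : MvPolynomial σ ℚ, R ≠ 0 ∧ ∀ x : σ → ℚ, MvPolynomial.eval (fun j => (x j : K)) Q = 0 →
      MvPolynomial.eval x R = 0 := by
  classical
  obtain ⟨m, hm⟩ : ∃ m, Q.coeff m ≠ 0 := by
    by_contra h
    push Not at h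
    exact hQ (MvPolynomial.ext _ _ fun m => by rw [h m, MvPolynomial.coeff_zero])
  obtain ⟨f, hf⟩ : ∃ f : Module.Dual ℚ K, f (Q.coeff m) ≠ 0 := by
    by_contra h
    push Not at h
    exact hm ((Module.forall_dual_apply_eq_zero_iff ℚ _).1 h)
  refine ⟨∑ s ∈ Q.support, MvPolynomial.monomial s (f (Q.coeff s)), ?_, fun x hx => ?_⟩
  · intro h0
    have h1 := congrArg (MvPolynomial.coeff m) h0
    rw [MvPolynomial.coeff_sum, MvPolynomial.coeff_zero] at h1
    simp only [MvPolynomial.coeff_monomial] at h1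
    rw [Finset.sum_ite_eq' Q.support m, if_pos (MvPolynomial.mem_support_iff.2 hm)] at h1
    exact hf h1
  · rw [map_sum]
    rw [MvPolynomial.eval_eq] at hx
    have h1 := congrArg f hx
    rw [map_zero, map_sum] at h1
    rw [← h1]
    refine Finset.sum_congr rfl fun s _ => ?_
    rw [MvPolynomial.eval_monomial, Finsupp.prod]
    have h2 : Q.coeff s * ∏ i ∈ s.support, (x i : K) ^ s i =
        (∏ i ∈ s.support, x i ^ s i) • Q.coeff s := by
      rw [Rat.smul_def]
      push_cast
      ring
    rw [h2, map_smul, smul_eq_mul, mul_comm]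

/-- every integral vector is a multiple of a primitive one -/
theorem exists_prim (c : Fin 3 → ℤ) (hc : c ≠ 0) : ∃ (g : ℤ) (p : Fin 3 → ℤ), g ≠ 0 ∧ Prim p ∧
    ∀ j, c j = g * p j := by
  classical
  obtain ⟨p, h1, h2⟩ := Finset.extract_gcd c (s := Finset.univ) Finset.univ_nonempty
  refine ⟨Finset.univ.gcd c, p, ?_, ?_, fun j => h1 j (Finset.mem_univ j)⟩
  · intro h0
    rw [Finset.gcd_eq_zero_iff] at h0
    exact hc (funext fun j => h0 j (Finset.mem_univ j))
  · -- Bezout
    have h3 : Ideal.span (Set.range p) = ⊤ := by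
      obtain ⟨d, hd⟩ := (IsPrincipalIdealRing.principal (Ideal.span (Set.range p))).principal
      rw [← Ideal.span] at hd
      have h4 : d ∣ Finset.univ.gcd p := by
        refine Finset.dvd_gcd fun j _ => ?_
        rw [← Ideal.mem_span_singleton, ← hd]
        exact Ideal.subset_span ⟨j, rfl⟩
      rw [h2] at h4
      rw [hd, Ideal.span_singleton_eq_top]
      exact isUnit_of_dvd_one h4
    have h4 : (1 : ℤ) ∈ Ideal.span (Set.range p) := by rw [h3]; trivial
    obtain ⟨α, hα⟩ := (Ideal.mem_span_range_iff_exists_fun).1 h4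
    exact ⟨α, hα⟩

end Pool.Agent.J4.H56
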