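import Pool.Agent.Y787.FE.Dim
import Pool.Agent.R350.GW
import Pool.Agent.J4.H56.Plane

/-!
# Transfer to ultrapowers
-/

set_option autoImplicit false

namespace Pool.Agent.J4.H56

attribute [-instance] Filter.Germ.instModule' Filter.Germ.instSMul' Filter.Germ.instMulAction' Filter.Germ.instDistribMulAction'

open Filter Module Pool.Agent.Y787.GL Pool.Agent.Y787.FE
open Pool.Agent.Y787 (QC mem_QC HypC hyperplane)
open Pool.Agent.R350 (BadRow suppI suppI_bound suppI_le second_mem hypV_of_hypC)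

variable {Cc : Type} [Field Cc] [CharZero Cc] {ι : Type}

/-- the ultrapower of the field of algebraic numbers -/
abbrev FU (Cc : Type) [Field Cc] [CharZero Cc] (𝒰 : Ultrafilter ι) : Type :=
  Germ (𝒰 : Filter ι) (QC Cc)

/-- the ultrapower of the big field -/
abbrev OU (Cc : Type) [Field Cc] [CharZero Cc] (𝒰 : Ultrafilter ι) : Type :=
  Germ (𝒰 : Filter ι) Cc

noncomputable instance algU (𝒰 : Ultrafilter ι) : Algebra (FU Cc 𝒰) (OU Cc 𝒰) :=
  (germMap 𝒰 (algebraMap (QC Cc) Cc)).toAlgebra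

theorem algU_gh (𝒰 : Ultrafilter ι) (a : ι → QC Cc) :
    algebraMap (FU Cc 𝒰) (OU Cc 𝒰) (gh 𝒰 (QC Cc) a) = gh 𝒰 Cc (up a) := rfl

theorem smul_gh (𝒰 : Ultrafilter ι) (a : ι → QC Cc) (f : ι → Cc) :
    (gh 𝒰 (QC Cc) a : FU Cc 𝒰) • (gh 𝒰 Cc f : OU Cc 𝒰) = gh 𝒰 Cc (fun b => (a b : Cc) * f b) := by
  rw [Algebra.smul_def, algU_gh, ← map_mul]
  rfl

instance charZeroU (𝒰 : Ultrafilter ι) : CharZero (OU Cc 𝒰) :=
  charZero_of_injective_ringHom ((gh 𝒰 Cc).comp (Pi.constRingHom ι Cc)).injective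

/-- linear independence at almost all points -/
theorem li_pt (𝒰 : Ultrafilter ι) {κ : Type} [Fintype κ] {n : ℕ} (f : Fin n → κ → ι → Cc)
    (h : LinearIndependent (FU Cc 𝒰) (fun k => (fun i => gh 𝒰 Cc (f k i) : κ → OU Cc 𝒰))) :
    ∀ᶠ b in (𝒰 : Filter ι), ∀ c : Fin n → QC Cc, (∀ i, ∑ k, (c k : Cc) * f k i b = 0) → c = 0 := by
  classical
  by_contra hcon
  rw [← Ultrafilter.eventually_not] at hcon
  have hex : ∀ b, (¬ ∀ c : Fin n → QC Cc, (∀ i, ∑ k, (c k : Cc) * f k i b = 0) → c = 0) →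
      ∃ c : Fin n → QC Cc, (∀ i, ∑ k, (c k : Cc) * f k i b = 0) ∧ c ≠ 0 := by
    intro b hb
    push Not at hb
    exact hb
  choose! c hc using hex
  have h1 := Fintype.linearIndependent_iff.1 h (fun k => gh 𝒰 (QC Cc) fun b => c b k) (by
    funext i
    rw [Finset.sum_apply]
    simp only [Pi.smul_apply, smul_gh, Pi.zero_apply]
    rw [← map_sum, gh_eq_zero]
    refine hcon.mono fun b hb => ?_
    rw [Finset.sum_apply]
    exact (hc b hb).1 i)
  have h2 : ∀ᶠ b in (𝒰 : Filter ι), ∀ k, c b k = 0 := by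
    rw [Filter.eventually_all]
    intro k
    exact (gh_eq_zero 𝒰 _).1 (h1 k)
  obtain ⟨b, hb1, hb2⟩ := (hcon.and h2).exists
  exact (hc b hb1).2 (funext hb2)

/-- linear independence from independence at almost all points -/
theorem li_of_pt (𝒰 : Ultrafilter ι) {n : ℕ} (f : Fin n → ι → Cc)
    (h : ∀ᶠ b in (𝒰 : Filter ι), ∀ c : Fin n → QC Cc, ∑ k, (c k : Cc) * f k b = 0 → c = 0) :
    LinearIndependent (FU Cc 𝒰) (fun k => (gh 𝒰 Cc (f k) : OU Cc 𝒰)) := by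
  classical
  rw [Fintype.linearIndependent_iff]
  intro g hg
  choose g' hg' using fun k => gh_surj 𝒰 (QC Cc) (g k)
  simp only [← hg', smul_gh] at hg
  rw [← map_sum, gh_eq_zero] at hg
  intro k
  rw [← hg' k, gh_eq_zero]
  refine (hg.and h).mono fun b hb => ?_
  have h1 := hb.2 (fun k => g' k b) (by
    have := hb.1
    rwa [Finset.sum_apply] at this)
  exact congrFun h1 k

variable {Lt : Submodule (QC Cc) Cc}

/-- the space of logarithms in the ultrapower -/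
noncomputable def LU (Lt : Submodule (QC Cc) Cc) (𝒰 : Ultrafilter ι) :
    Submodule (FU Cc 𝒰) (OU Cc 𝒰) :=
  Submodule.span (FU Cc 𝒰) {w | ∃ l ∈ Lt, w = gh 𝒰 Cc (fun _ => l)}

theorem LU_const (𝒰 : Ultrafilter ι) {l : Cc} (hl : l ∈ Lt) :
    (gh 𝒰 Cc (fun _ => l) : OU Cc 𝒰) ∈ LU Lt 𝒰 := Submodule.subset_span ⟨l, hl, rfl⟩

theorem LU_pt (𝒰 : Ultrafilter ι) {w : OU Cc 𝒰} (hw : w ∈ LU Lt 𝒰) :
    ∃ f : ι → Cc, (∀ b, f b ∈ Lt) ∧ w = gh 𝒰 Cc f := by
  refine Submodule.span_induction (p := fun w _ => ∃ f : ι → Cc, (∀ b, f b ∈ Lt) ∧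
    w = gh 𝒰 Cc f) ?_ ?_ ?_ ?_ hw
  · rintro _ ⟨l, hl, rfl⟩
    exact ⟨_, fun _ => hl, rfl⟩
  · exact ⟨0, fun _ => Lt.zero_mem, (map_zero _).symm⟩
  · rintro x y - - ⟨f, hf, rfl⟩ ⟨g, hg, rfl⟩
    exact ⟨f + g, fun b => Lt.add_mem (hf b) (hg b), (map_add _ _ _).symm⟩
  · rintro a x - ⟨f, hf, rfl⟩
    obtain ⟨a', rfl⟩ := gh_surj 𝒰 (QC Cc) a
    refine ⟨_, fun b => ?_, smul_gh 𝒰 a' f⟩
    have := Lt.smul_mem (a' b) (hf b)
    rwa [Algebra.smul_def] at this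

theorem LU_cmb (𝒰 : Ultrafilter ι) {M : ℕ} {l : Fin M → Cc} (hl : ∀ j, l j ∈ Lt)
    (a : ι → Fin M → QC Cc) : (gh 𝒰 Cc (fun b => cmb l (a b)) : OU Cc 𝒰) ∈ LU Lt 𝒰 := by
  have h1 : (gh 𝒰 Cc (fun b => cmb l (a b)) : OU Cc 𝒰) =
      ∑ j, (gh 𝒰 (QC Cc) (fun b => a b j) : FU Cc 𝒰) • (gh 𝒰 Cc (fun _ => l j) : OU Cc 𝒰) := by
    simp only [smul_gh]
    rw [← map_sum]
    congr 1
    funext b
    rw [Finset.sum_apply]
    rfl
  rw [h1]
  exact Submodule.sum_mem _ fun j _ => Submodule.smul_mem _ _ (LU_const 𝒰 (hl j))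

/-- derivations preserve `LU` -/
theorem LU_der (𝒰 : Ultrafilter ι) {D : Derivation ℤ (OU Cc 𝒰) (OU Cc 𝒰)}
    (hD : PresF (FU Cc 𝒰) D) (hD0 : ∀ z : Cc, D (gh 𝒰 Cc (fun _ => z)) = 0) :
    ∀ w ∈ LU Lt 𝒰, D w ∈ LU Lt 𝒰 := by
  intro w hw
  refine Submodule.span_induction (p := fun w _ => D w ∈ LU Lt 𝒰) ?_ ?_ ?_ ?_ hw
  · rintro _ ⟨l, hl, rfl⟩
    rw [hD0]
    exact Submodule.zero_mem _
  · rw [map_zero]
    exact Submodule.zero_mem _
  · intro x y _ _ hx hy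
    rw [map_add]
    exact Submodule.add_mem _ hx hy
  · intro a x hx hDx
    obtain ⟨a', ha'⟩ := hD a
    rw [Algebra.smul_def, D.leibniz, ha', smul_eq_mul, smul_eq_mul, mul_comm x,
      ← Algebra.smul_def, ← Algebra.smul_def]
    exact Submodule.add_mem _ (Submodule.smul_mem _ _ hDx) (Submodule.smul_mem _ _ hx)

theorem hyperU [HypC Lt] (𝒰 : Ultrafilter ι) : Hyper (LU Lt 𝒰) := by
  classical
  intro d l x a hx ha hxa hcol
  choose f hf using fun i => gh_surj 𝒰 Cc (x i)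
  choose g hg1 hg2 using fun i j => LU_pt 𝒰 (ha i j)
  have h1 : ∀ᶠ b in (𝒰 : Filter ι), ∀ c : Fin d → QC Cc, (∀ i : Unit,
      ∑ k, (c k : Cc) * f k b = 0) → c = 0 := by
    refine li_pt 𝒰 (κ := Unit) (fun k _ => f k) ?_
    rw [Fintype.linearIndependent_iff] at hx ⊢
    intro c hc
    refine hx c ?_
    have := congrFun hc ()
    rw [Finset.sum_apply, Pi.zero_apply] at this
    simpa only [Pi.smul_apply, hf] using this
  have h2 : ∀ᶠ b in (𝒰 : Filter ι), ∀ c : Fin l → QC Cc, (∀ i : Fin d,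
      ∑ k, (c k : Cc) * g i k b = 0) → c = 0 := by
    refine li_pt 𝒰 (fun k i => g i k) ?_
    have e : (fun j i => a i j) = fun k => (fun i => gh 𝒰 Cc (g i k) : Fin d → OU Cc 𝒰) := by
      funext j i
      exact hg2 i j
    rw [← e]
    exact hcol
  have h3 : ∀ᶠ b in (𝒰 : Filter ι), ∀ j, ∑ i, f i b * g i j b = 0 := by
    rw [Filter.eventually_all]
    intro j
    have := hxa j
    simp only [← hf, hg2, ← map_mul] at this
    rw [← map_sum, gh_eq_zero] at this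
    refine this.mono fun b hb => ?_
    rw [Finset.sum_apply] at hb
    exact hb
  obtain ⟨b, hb1, hb2, hb3⟩ := (h1.and (h2.and h3)).exists
  refine hyperplane (Lt := Lt) d l (fun i => f i b) (fun i j => g i j b) ?_
    (fun i j => hg1 i j b) hb3 ?_
  · rw [Fintype.linearIndependent_iff]
    intro c hc
    have := hb1 c (fun _ => by
      rw [← hc]
      exact Finset.sum_congr rfl fun k _ => by rw [Algebra.smul_def]; rfl)
    exact fun i => congrFun this i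
  · rw [Fintype.linearIndependent_iff]
    intro c hc
    have := hb2 c (fun i => by
      have h4 := congrFun hc i
      rw [Finset.sum_apply] at h4
      rw [Pi.zero_apply] at h4
      rw [← h4]
      exact Finset.sum_congr rfl fun k _ => by
        rw [Pi.smul_apply, Algebra.smul_def]; rfl)
    exact fun i => congrFun this i

variable [IsAlgClosed Cc]

theorem transU (𝒰 : Ultrafilter ι) (z : OU Cc 𝒰)
    (hz : ∀ c : FU Cc 𝒰, z ≠ algebraMap (FU Cc 𝒰) (OU Cc 𝒰) c) :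
    Transcendental (FU Cc 𝒰) z := by
  classical
  obtain ⟨f, rfl⟩ := gh_surj 𝒰 Cc z
  have h1 : ∀ᶠ b in (𝒰 : Filter ι), f b ∉ QC Cc := by
    by_contra hcon
    rw [← Ultrafilter.eventually_not] at hcon
    refine hz (gh 𝒰 (QC Cc) (fun b => if h : f b ∈ QC Cc then ⟨f b, h⟩ else 0)) ?_
    rw [algU_gh, gh_eq]
    refine hcon.mono fun b hb => ?_
    rw [not_not] at hb
    unfold up
    simp only [hb, dif_pos]
    rfl
  rw [_root_.transcendental_iff]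
  intro P hP
  choose c hc using fun i => gh_surj 𝒰 (QC Cc) (P.coeff i)
  rw [Polynomial.aeval_eq_sum_range] at hP
  simp only [← hc, ← map_pow, smul_gh] at hP
  rw [← map_sum, gh_eq_zero] at hP
  have h2 : ∀ᶠ b in (𝒰 : Filter ι), ∀ i ∈ Finset.range (P.natDegree + 1), c i b = 0 := by
    refine (hP.and h1).mono fun b hb => ?_
    obtain ⟨h3, h4⟩ := hb
    rw [Finset.sum_apply] at h3
    have h5 : Transcendental (QC Cc) (f b) := tr_iff.2 h4
    have h6 := _root_.transcendental_iff.1 h5 (∑ i ∈ Finset.range (P.natDegree + 1),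
      Polynomial.C (c i b) * Polynomial.X ^ i) (by
        rw [map_sum, ← h3]
        refine Finset.sum_congr rfl fun i _ => ?_
        rw [map_mul, Polynomial.aeval_C, map_pow, Polynomial.aeval_X]
        rfl)
    intro i hi
    have h7 := congrArg (fun Q => Polynomial.coeff Q i) h6
    simp only [Polynomial.finsetSum_coeff, Polynomial.coeff_C_mul, Polynomial.coeff_X_pow,
      Polynomial.coeff_zero] at h7
    rw [Finset.sum_eq_single i] at h7
    · simpa using h7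
    · intro j _ hj
      rw [if_neg (Ne.symm hj), mul_zero]
    · intro h8
      exact absurd hi h8
  ext i
  rw [Polynomial.coeff_zero]
  by_cases hi : i ∈ Finset.range (P.natDegree + 1)
  · rw [← hc, gh_eq_zero]
    exact h2.mono fun b hb => hb i hi
  · rw [Finset.mem_range, not_lt] at hi
    exact Polynomial.coeff_eq_zero_of_natDegree_lt (by omega)

variable [HypC Lt]

/-- **No families of first rows with two independent parameters of this shape.** -/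
theorem ultra_plane (𝒰 : Ultrafilter ι) {Da Db : Derivation ℤ (OU Cc 𝒰) (OU Cc 𝒰)}
    (hDa : ∀ a : ι → QC Cc, ∃ a' : ι → QC Cc, Da (gh 𝒰 Cc (up a)) = gh 𝒰 Cc (up a'))
    (hDb : ∀ a : ι → QC Cc, ∃ a' : ι → QC Cc, Db (gh 𝒰 Cc (up a)) = gh 𝒰 Cc (up a'))
    (hDa0 : ∀ z : Cc, Da (gh 𝒰 Cc (fun _ => z)) = 0)
    (hDb0 : ∀ z : Cc, Db (gh 𝒰 Cc (fun _ => z)) = 0)
    (X Y V : ι → Cc) (hX : gh 𝒰 Cc X ∈ LU Lt 𝒰) (hY : gh 𝒰 Cc Y ∈ LU Lt 𝒰)
    (hV : gh 𝒰 Cc V ∈ LU Lt 𝒰)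
    (hli : ∀ᶠ b in (𝒰 : Filter ι), ∀ c : Fin 3 → QC Cc,
      (c 0 : Cc) * X b + c 1 * Y b + c 2 * V b = 0 → c = 0)
    (hax : Da (gh 𝒰 Cc X) = gh 𝒰 Cc V) (hay : Da (gh 𝒰 Cc Y) = 0) (hav : Da (gh 𝒰 Cc V) = 0)
    (hbx : Db (gh 𝒰 Cc X) = 0) (hby : Db (gh 𝒰 Cc Y) = gh 𝒰 Cc V) (hbv : Db (gh 𝒰 Cc V) = 0)
    (W : Submodule (QC Cc) Cc) [FiniteDimensional (QC Cc) W]
    (hXW : ∀ b, X b ∈ W) (hYW : ∀ b, Y b ∈ W) (hbad : ∀ b, BadRow Lt (X b) (Y b)) : False := by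
  classical
  choose w hw z hz hc using hbad
  have hfd := (suppI_bound (hypV_of_hypC (Lt := Lt)) W).1
  have hw' := fun b => (second_mem (hXW b) (hYW b) (hw b) (hz b) (hc b)).1
  have hz' := fun b => (second_mem (hXW b) (hYW b) (hw b) (hz b) (hc b)).2
  let B := Module.finBasis (QC Cc) (suppI Lt W)
  have hcmb : ∀ u : ι → Cc, (∀ b, u b ∈ suppI Lt W) → gh 𝒰 Cc u ∈ LU Lt 𝒰 := by
    intro u hu
    have e : u = fun b => cmb (fun j => ((B j : suppI Lt W) : Cc))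
        (fun j => B.repr ⟨u b, hu b⟩ j) := by
      funext b
      have h1 := B.sum_repr ⟨u b, hu b⟩
      have h2 := congrArg (fun v : suppI Lt W => (v : Cc)) h1
      simp only [Submodule.coe_sum, Submodule.coe_smul] at h2
      refine h2.symm.trans ?_
      rw [cmb]
      exact Finset.sum_congr rfl fun j _ => by rw [Algebra.smul_def]
    rw [e]
    exact LU_cmb 𝒰 (fun j => suppI_le Lt W (B j).2) _
  have hPa : PresF (FU Cc 𝒰) Da := by
    intro c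
    obtain ⟨a, rfl⟩ := gh_surj 𝒰 (QC Cc) c
    obtain ⟨a', ha'⟩ := hDa a
    exact ⟨gh 𝒰 (QC Cc) a', ha'⟩
  have hPb : PresF (FU Cc 𝒰) Db := by
    intro c
    obtain ⟨a, rfl⟩ := gh_surj 𝒰 (QC Cc) c
    obtain ⟨a', ha'⟩ := hDb a
    exact ⟨gh 𝒰 (QC Cc) a', ha'⟩
  have hX0 : ∀ b, X b ≠ 0 := fun b => (hc b).bad.1
  have hY0 : ∀ b, Y b ≠ 0 := fun b => (hc b).swapc.bad.1
  have ex : gh 𝒰 Cc (fun b => w b / X b) * gh 𝒰 Cc X = gh 𝒰 Cc w := by
    rw [← map_mul]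
    congr 1
    funext b
    exact div_mul_cancel₀ _ (hX0 b)
  have ey : gh 𝒰 Cc (fun b => w b / X b) * gh 𝒰 Cc Y = gh 𝒰 Cc z := by
    rw [← map_mul]
    congr 1
    funext b
    have h1 := (hc b).1
    change w b / X b * Y b = z b
    rw [div_mul_eq_mul_div, div_eq_iff (hX0 b)]
    linear_combination -h1
  have hli' : LinearIndependent (FU Cc 𝒰) ![gh 𝒰 Cc X, gh 𝒰 Cc Y, gh 𝒰 Cc V] := by
    have h1 := li_of_pt 𝒰 (Cc := Cc) ![X, Y, V] (by
      refine hli.mono fun b hb c hcb => hb c ?_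
      rw [Fin.sum_univ_three] at hcb
      simpa using hcb)
    have e : (fun k => (gh 𝒰 Cc (![X, Y, V] k) : OU Cc 𝒰)) =
        ![gh 𝒰 Cc X, gh 𝒰 Cc Y, gh 𝒰 Cc V] := by
      funext k
      fin_cases k <;> rfl
    rwa [e] at h1
  obtain ⟨c, hct⟩ := no_plane (L := LU Lt 𝒰) (hyperU 𝒰) (transU 𝒰) hPa hPb
    (LU_der 𝒰 hPa hDa0) (LU_der 𝒰 hPb hDb0) hX hY hV hli' hax hay hav hbx hby hbv
    (t := gh 𝒰 Cc (fun b => w b / X b)) (by rw [ex]; exact hcmb w hw') (by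
      rw [ey]; exact hcmb z hz')
  obtain ⟨c', rfl⟩ := gh_surj 𝒰 (QC Cc) c
  rw [algU_gh, gh_eq] at hct
  obtain ⟨b, hb⟩ := hct.exists
  refine (hc b).bad.2.2.2 (c' b) ?_
  rw [← div_eq_iff (hX0 b)]
  exact hb

end Pool.Agent.J4.H56
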